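import Mathlib

set_option autoImplicit false

/-!
# Bounded extensions of the associated functionals of a minimal sequence with dense sum
-/

open Filter Topology

namespace Pool.Agent.N312.BdExt

variable {𝕜 E : Type*} [RCLike 𝕜] [NormedAddCommGroup E] [NormedSpace 𝕜 E]

/-- The closed linear span of a sequence. -/
abbrev cspan (𝕜 : Type*) {E : Type*} [RCLike 𝕜] [NormedAddCommGroup E] [NormedSpace 𝕜 E]
    (x : ℕ → E) : Submodule 𝕜 E :=
  (Submodule.span 𝕜 (Set.range x)).topologicalClosure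

theorem mem_cspan (x : ℕ → E) (n : ℕ) : x n ∈ cspan 𝕜 x :=
  Submodule.le_topologicalClosure _ (Submodule.subset_span ⟨n, rfl⟩)

/-- Bounded associated functionals tend to zero pointwise on the closed span. -/
theorem tendsto_zero (x : ℕ → E) (φ : ℕ → (cspan 𝕜 x →L[𝕜] 𝕜)) {D : ℝ}
    (hb : ∀ i j, φ i ⟨x j, mem_cspan x j⟩ = if i = j then 1 else 0) (hD : ∀ n, ‖φ n‖ ≤ D)
    (g : cspan 𝕜 x) : Tendsto (fun n => φ n g) atTop (𝓝 0) := by
  have hspan : ∀ v ∈ Submodule.span 𝕜 (Set.range x), ∃ h : v ∈ cspan 𝕜 x,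
      ∀ᶠ n in atTop, φ n ⟨v, h⟩ = 0 := by
    intro v hv
    induction hv using Submodule.span_induction with
    | mem v hv =>
      obtain ⟨k, rfl⟩ := hv
      refine ⟨mem_cspan x k, ?_⟩
      filter_upwards [eventually_gt_atTop k] with n hn
      rw [hb, if_neg (by omega)]
    | zero => exact ⟨Submodule.zero_mem _, Eventually.of_forall fun n => map_zero (φ n)⟩
    | add a b _ _ ha hb =>
      obtain ⟨ha1, ha2⟩ := ha
      obtain ⟨hb1, hb2⟩ := hb
      refine ⟨Submodule.add_mem _ ha1 hb1, ?_⟩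
      filter_upwards [ha2, hb2] with n h1 h2
      have : (⟨a + b, Submodule.add_mem _ ha1 hb1⟩ : cspan 𝕜 x) = ⟨a, ha1⟩ + ⟨b, hb1⟩ := rfl
      rw [this, map_add, h1, h2, add_zero]
    | smul c a _ ha =>
      obtain ⟨ha1, ha2⟩ := ha
      refine ⟨Submodule.smul_mem _ c ha1, ?_⟩
      filter_upwards [ha2] with n h1
      have : (⟨c • a, Submodule.smul_mem _ c ha1⟩ : cspan 𝕜 x) = c • ⟨a, ha1⟩ := rfl
      rw [this, map_smul, h1, smul_zero]
  rw [Metric.tendsto_atTop]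
  intro ε hε
  have hD0 : 0 ≤ D := (norm_nonneg _).trans (hD 0)
  have hg' : (g : E) ∈ closure (Submodule.span 𝕜 (Set.range x) : Set E) := g.2
  obtain ⟨v, hv, hgv⟩ := Metric.mem_closure_iff.1 hg' (ε / (D + 1)) (by positivity)
  obtain ⟨hv1, hv2⟩ := hspan v hv
  obtain ⟨N, hN⟩ := eventually_atTop.1 hv2
  refine ⟨N, fun n hn => ?_⟩
  rw [dist_zero_right]
  have h1 : φ n g = φ n (g - ⟨v, hv1⟩) := by rw [map_sub, hN n hn, sub_zero]
  rw [h1]
  have h2 : ‖g - ⟨v, hv1⟩‖ = dist (g : E) v := by rw [dist_eq_norm]; rfl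
  calc ‖φ n (g - ⟨v, hv1⟩)‖ ≤ ‖φ n‖ * ‖g - ⟨v, hv1⟩‖ := (φ n).le_opNorm _
    _ ≤ (D + 1) * ‖g - ⟨v, hv1⟩‖ := by
      have := hD n
      gcongr
      linarith
    _ < (D + 1) * (ε / (D + 1)) := by rw [h2]; gcongr
    _ = ε := by field_simp

/-- The key estimate: on `G ⊕ V` with `V` finite-dimensional, the functionals `φ n ⊕ 0` have norm
at most `(2 + η) D` for all large `n`. -/
theorem key (G : Submodule 𝕜 E) (hG : IsClosed (G : Set E)) (φ : ℕ → (G →L[𝕜] 𝕜)) {D : ℝ}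
    (hDpos : 0 < D) (hD : ∀ n, ‖φ n‖ ≤ D) (h0 : ∀ g, Tendsto (fun n => φ n g) atTop (𝓝 0))
    (V : Submodule 𝕜 E) [FiniteDimensional 𝕜 V] (hV : Disjoint G V) {η : ℝ} (hη : 0 < η) :
    ∃ N, ∀ n, N ≤ n → ∀ (g : G) (v : V), ‖φ n g‖ ≤ (2 + η) * D * ‖(g : E) + v‖ := by
  have : IsClosed (G : Set E) := hG
  -- `V` embeds into the quotient
  obtain ⟨K, hK0, hK⟩ := LinearMap.exists_antilipschitzWith (G.mkQ.comp V.subtype) (by
    rw [LinearMap.ker_eq_bot']
    intro v hv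
    have h1 : (v : E) ∈ G := by
      rw [LinearMap.comp_apply, Submodule.mkQ_apply, Submodule.Quotient.mk_eq_zero] at hv
      exact hv
    exact Subtype.ext (Submodule.disjoint_def.1 hV _ h1 v.2))
  have hVb : ∀ (g : G) (v : V), ‖v‖ ≤ K * ‖(g : E) + v‖ := by
    intro g v
    have h1 := hK.le_mul_dist v 0
    rw [dist_zero_right, map_zero, dist_zero_right] at h1
    refine h1.trans ?_
    have h2 : (G.mkQ.comp V.subtype) v = Submodule.Quotient.mk ((g : E) + v) := by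
      rw [LinearMap.comp_apply, Submodule.mkQ_apply, Submodule.coe_subtype,
        Submodule.Quotient.eq]
      have : (v : E) - (g + v) = -(g : E) := by abel
      rw [this]
      exact G.neg_mem g.2
    rw [h2]
    gcongr
    exact Submodule.Quotient.norm_mk_le _ _
  set δ : ℝ := η / 3 with hδ
  have hδ0 : 0 < δ := by positivity
  have hcomp : IsCompact (Metric.closedBall (0 : V) K) := isCompact_closedBall _ _
  obtain ⟨t, htf, ht⟩ := Metric.totallyBounded_iff.1 hcomp.totallyBounded δ hδ0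
  -- witnesses
  have hw : ∀ y : V, ∃ g' : G, (∃ g : G, ‖(g : E) + y‖ ≤ 1 + δ) → ‖(g' : E) + y‖ ≤ 1 + δ := by
    intro y
    by_cases h : ∃ g : G, ‖(g : E) + y‖ ≤ 1 + δ
    · obtain ⟨g, hg⟩ := h
      exact ⟨g, fun _ => hg⟩
    · exact ⟨0, fun h' => absurd h' h⟩
  choose w hw using hw
  have hN : ∀ y : V, ∃ N, ∀ n, N ≤ n → ‖φ n (w y)‖ ≤ D * δ := by
    intro y
    obtain ⟨N, hN⟩ := Metric.tendsto_atTop.1 (h0 (w y)) (D * δ) (by positivity)
    refine ⟨N, fun n hn => ?_⟩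
    have := hN n hn
    rw [dist_zero_right] at this
    exact this.le
  choose N hN using hN
  obtain ⟨N0, hN0⟩ : ∃ N0, ∀ y ∈ t, N y ≤ N0 := by
    refine ⟨(htf.toFinset).sup N, fun y hy => ?_⟩
    exact Finset.le_sup (f := N) (htf.mem_toFinset.2 hy)
  refine ⟨N0, fun n hn => ?_⟩
  -- the estimate on the unit ball
  have hunit : ∀ (g : G) (v : V), ‖(g : E) + v‖ ≤ 1 → ‖φ n g‖ ≤ (2 + η) * D := by
    intro g v hgv
    have hv : v ∈ Metric.closedBall (0 : V) K := by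
      rw [mem_closedBall_zero_iff]
      refine (hVb g v).trans ?_
      have hK' : (0 : ℝ) ≤ K := K.2
      nlinarith
    obtain ⟨y, hy, hvy⟩ : ∃ y ∈ t, dist v y < δ := by
      have := ht hv
      simp only [Set.mem_iUnion, Metric.mem_ball] at this
      obtain ⟨y, hy, h⟩ := this
      exact ⟨y, hy, h⟩
    rw [dist_eq_norm] at hvy
    have h1 : ‖(g : E) + y‖ ≤ 1 + δ := by
      have h2 : (g : E) + y = ((g : E) + v) - ((v - y : V) : E) := by
        rw [Submodule.coe_sub]; abel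
      rw [h2]
      refine (norm_sub_le _ _).trans ?_
      have : ‖((v - y : V) : E)‖ = ‖v - y‖ := rfl
      rw [this]
      linarith
    have h3 := hw y ⟨g, h1⟩
    have h4 : ‖g - w y‖ ≤ 2 + 2 * δ := by
      have h5 : ((g - w y : G) : E) = ((g : E) + y) - ((w y : E) + y) := by
        rw [Submodule.coe_sub]; abel
      have h6 : ‖g - w y‖ = ‖((g - w y : G) : E)‖ := rfl
      rw [h6, h5]
      refine (norm_sub_le _ _).trans ?_
      linarith
    have h7 : φ n g = φ n (g - w y) + φ n (w y) := by rw [← map_add, sub_add_cancel]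
    rw [h7]
    refine (norm_add_le _ _).trans ?_
    have h8 : ‖φ n (g - w y)‖ ≤ D * (2 + 2 * δ) :=
      ((φ n).le_opNorm _).trans (mul_le_mul (hD n) h4 (norm_nonneg _) hDpos.le)
    have h9 := hN y n ((hN0 y hy).trans hn)
    have h10 : η = 3 * δ := by rw [hδ]; ring
    rw [h10]
    nlinarith
  intro g v
  by_cases hz : (g : E) + v = 0
  · have h1 : (g : E) ∈ V := by
      have : (g : E) = -(v : E) := eq_neg_of_add_eq_zero_left hz
      rw [this]
      exact V.neg_mem v.2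
    have h2 : g = 0 := Subtype.ext (Submodule.disjoint_def.1 hV _ g.2 h1)
    rw [h2, map_zero, norm_zero]
    positivity
  · have hr : 0 < ‖(g : E) + v‖ := norm_pos_iff.2 hz
    set r : ℝ := ‖(g : E) + v‖ with hrdef
    have h1 := hunit ((r⁻¹ : 𝕜) • g) ((r⁻¹ : 𝕜) • v) (by
      rw [Submodule.coe_smul, Submodule.coe_smul, ← smul_add, norm_smul, ← hrdef, norm_inv,
        RCLike.norm_ofReal, abs_of_pos hr, inv_mul_cancel₀ hr.ne'])
    rw [map_smul, norm_smul, norm_inv, RCLike.norm_ofReal, abs_of_pos hr,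
      inv_mul_le_iff₀ hr] at h1
    linarith

/-- Extension of `φ ⊕ 0` from `G ⊕ V` to `E` with control of the norm. -/
theorem ext_zero (G V : Submodule 𝕜 E) (hV : Disjoint G V) (φ : G →L[𝕜] 𝕜) {M : ℝ}
    (hM : 0 ≤ M) (h : ∀ (g : G) (v : V), ‖φ g‖ ≤ M * ‖(g : E) + v‖) :
    ∃ f : E →L[𝕜] 𝕜, (∀ g : G, f g = φ g) ∧ (∀ v : V, f v = 0) ∧ ‖f‖ ≤ M := by
  let i : (G × V) →ₗ[𝕜] E := G.subtype.coprod V.subtype
  have hi : ∀ p : G × V, i p = (p.1 : E) + p.2 := fun p => rfl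
  have hinj : Function.Injective i := by
    rw [← LinearMap.ker_eq_bot, LinearMap.ker_eq_bot']
    rintro ⟨g, v⟩ hgv
    rw [hi] at hgv
    have h1 : (g : E) ∈ V := by
      have : (g : E) = -(v : E) := eq_neg_of_add_eq_zero_left hgv
      rw [this]
      exact V.neg_mem v.2
    have h2 : g = 0 := Subtype.ext (Submodule.disjoint_def.1 hV _ g.2 h1)
    subst h2
    have h3 : v = 0 := by
      apply Subtype.ext
      simpa using hgv
    subst h3
    rfl
  let e : (G × V) ≃ₗ[𝕜] LinearMap.range i := LinearEquiv.ofInjective i hinj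
  let ψ0 : LinearMap.range i →ₗ[𝕜] 𝕜 :=
    (φ.toLinearMap.comp (LinearMap.fst 𝕜 G V)).comp e.symm.toLinearMap
  have hψ0 : ∀ p : G × V, ψ0 (e p) = φ p.1 := fun p => by
    change φ (e.symm (e p)).1 = φ p.1
    rw [e.symm_apply_apply]
  let ψ : LinearMap.range i →L[𝕜] 𝕜 := LinearMap.mkContinuous ψ0 M (by
    intro w
    obtain ⟨p, rfl⟩ := e.surjective w
    rw [hψ0]
    exact h p.1 p.2)
  obtain ⟨f, hf1, hf2⟩ := exists_extension_norm_eq (LinearMap.range i) ψ
  have hfe : ∀ p : G × V, f (i p) = φ p.1 := fun p => (hf1 (e p)).trans (hψ0 p)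
  refine ⟨f, fun g => ?_, fun v => ?_, ?_⟩
  · have := hfe (g, 0)
    rw [hi] at this
    simpa using this
  · have := hfe (0, v)
    rw [hi] at this
    simpa using this
  · rw [hf2]
    exact LinearMap.mkContinuous_norm_le _ hM _

/-- The main theorem for a closed subspace `G` containing the sequence. -/
theorem main_aux [TopologicalSpace.SeparableSpace E] (x : ℕ → E) (G : Submodule 𝕜 E)
    (hGcl : IsClosed (G : Set E)) (hx : ∀ n, x n ∈ G) (φ : ℕ → (G →L[𝕜] 𝕜)) {D : ℝ}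
    (hb : ∀ i j, φ i ⟨x j, hx j⟩ = if i = j then 1 else 0) (hD : ∀ n, ‖φ n‖ ≤ D)
    (h0 : ∀ g, Tendsto (fun n => φ n g) atTop (𝓝 0)) {η : ℝ} (hη : 0 < η) :
    ∃ f : ℕ → (E →L[𝕜] 𝕜), (∀ n (g : G), f n g = φ n g) ∧ (∀ n, ‖f n‖ ≤ (2 + η) * D) ∧
      Dense {v : E | ∃ g ∈ G, ∃ y : E, (∀ n, f n y = 0) ∧ v = g + y} := by
  classical
  have hDpos : 0 < D := by
    refine lt_of_lt_of_le ?_ (hD 0)
    rw [norm_pos_iff]
    intro h
    have := hb 0 0
    rw [h] at this
    simp at this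
  obtain ⟨W, hW⟩ := Submodule.exists_isCompl G
  -- a dense sequence and its components in `W`
  set d : ℕ → E := TopologicalSpace.denseSeq E with hd
  have hdz : ∀ j, ∃ g ∈ G, ∃ w ∈ W, g + w = d j := fun j => by
    have : d j ∈ G ⊔ W := by rw [hW.sup_eq_top]; trivial
    exact Submodule.mem_sup.1 this
  choose u hu z hz huz using hdz
  let V : ℕ → Submodule 𝕜 E := fun k => Submodule.span 𝕜 (z '' Set.Iio k)
  have hVfin : ∀ k, FiniteDimensional 𝕜 (V k) := fun k =>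
    FiniteDimensional.span_of_finite 𝕜 ((Set.finite_Iio k).image z)
  have hVW : ∀ k, V k ≤ W := fun k => by
    rw [Submodule.span_le]
    rintro _ ⟨j, -, rfl⟩
    exact hz j
  have hVd : ∀ k, Disjoint G (V k) := fun k => hW.disjoint.mono_right (hVW k)
  have hV0 : V 0 = ⊥ := by
    simp only [V]
    rw [Submodule.span_eq_bot]
    rintro _ ⟨j, hj, rfl⟩
    exact absurd hj (Nat.not_lt_zero j)
  -- the good pairs
  let P : ℕ → ℕ → Prop := fun n k =>
    ∀ (g : G) (v : V k), ‖φ n g‖ ≤ (2 + η) * D * ‖(g : E) + v‖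
  have hP0 : ∀ n, P n 0 := by
    intro n g v
    have hv : (v : E) = 0 := by
      obtain ⟨w, hw⟩ := v
      have h1 : w ∈ (⊥ : Submodule 𝕜 E) := hV0 ▸ hw
      exact (Submodule.mem_bot 𝕜).1 h1
    rw [hv, add_zero]
    have h1 := (φ n).le_opNorm g
    have h2 : ‖(g : E)‖ = ‖g‖ := rfl
    rw [h2]
    refine h1.trans (mul_le_mul_of_nonneg_right ?_ (norm_nonneg _))
    have := hD n
    nlinarith
  have hPk : ∀ k, ∃ N, ∀ n, N ≤ n → P n k := fun k =>
    have := hVfin k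
    key G hGcl φ hDpos hD h0 (V k) (hVd k) hη
  choose N hN using hPk
  let κ : ℕ → ℕ := fun n => Nat.findGreatest (P n) n
  have hκ : ∀ n, P n (κ n) := fun n => Nat.findGreatest_spec (Nat.zero_le n) (hP0 n)
  have hκ' : ∀ k n, max (N k) k ≤ n → k ≤ κ n := fun k n hn =>
    Nat.le_findGreatest ((le_max_right _ _).trans hn) (hN k n ((le_max_left _ _).trans hn))
  have hf : ∀ n, ∃ f : E →L[𝕜] 𝕜, (∀ g : G, f g = φ n g) ∧ (∀ v : V (κ n), f v = 0) ∧
      ‖f‖ ≤ (2 + η) * D := fun n =>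
    ext_zero G (V (κ n)) (hVd _) (φ n) (by positivity) (hκ n)
  choose f hf1 hf2 hf3 using hf
  refine ⟨f, hf1, hf3, ?_⟩
  have hfx : ∀ i j, f i (x j) = if i = j then 1 else 0 := fun i j => by
    rw [← hb i j]
    exact hf1 i ⟨x j, hx j⟩
  have hsub : Set.range d ⊆ {v : E | ∃ g ∈ G, ∃ y : E, (∀ n, f n y = 0) ∧ v = g + y} := by
    rintro _ ⟨j, rfl⟩
    -- `f n (z j) = 0` for large `n`
    set L := max (N (j + 1)) (j + 1) with hL
    have hz0 : ∀ n, L ≤ n → f n (z j) = 0 := by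
      intro n hn
      have h1 : z j ∈ V (κ n) :=
        Submodule.subset_span ⟨j, lt_of_lt_of_le (Nat.lt_succ_self j) (hκ' (j + 1) n hn), rfl⟩
      exact hf2 n ⟨z j, h1⟩
    refine ⟨u j + ∑ n ∈ Finset.range L, f n (z j) • x n, ?_,
      z j - ∑ n ∈ Finset.range L, f n (z j) • x n, ?_, ?_⟩
    · exact G.add_mem (hu j) (G.sum_mem fun n _ => G.smul_mem _ (hx n))
    · intro m
      rw [map_sub, map_sum]
      simp only [map_smul, hfx, smul_eq_mul, mul_ite, mul_one, mul_zero]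
      rw [Finset.sum_ite_eq]
      split_ifs with hm
      · exact sub_self _
      · rw [sub_zero]
        exact hz0 m (by simpa using hm)
    · rw [← huz j]; abel
  exact (TopologicalSpace.denseRange_denseSeq E).mono hsub

/-- **Main theorem.** -/
theorem main [TopologicalSpace.SeparableSpace E] (x : ℕ → E)
    (φ : ℕ → (cspan 𝕜 x →L[𝕜] 𝕜)) {D : ℝ}
    (hb : ∀ i j, φ i ⟨x j, mem_cspan x j⟩ = if i = j then 1 else 0) (hD : ∀ n, ‖φ n‖ ≤ D)
    {η : ℝ} (hη : 0 < η) :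
    ∃ f : ℕ → (E →L[𝕜] 𝕜), (∀ n (g : cspan 𝕜 x), f n g = φ n g) ∧
      (∀ n, ‖f n‖ ≤ (2 + η) * D) ∧
      Dense {v : E | ∃ g ∈ cspan 𝕜 x, ∃ y : E, (∀ n, f n y = 0) ∧ v = g + y} :=
  main_aux x (cspan 𝕜 x) (Submodule.isClosed_topologicalClosure _) (mem_cspan x) φ hb hD
    (tendsto_zero x φ hb hD) hη

end Pool.Agent.N312.BdExt
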