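import Mathlib

set_option autoImplicit false

/-!
# An extended M-basis of `X × ℓ₁(Γ)` for a space `X` with a total biorthogonal sequence
-/

open Filter Topology
open scoped ENNReal

namespace Pool.Agent.N312.MBL

section pairing

variable {𝕜 : Type*} [RCLike 𝕜] {Γ : Type*}

theorem l1_summable (v : lp (fun _ : Γ => 𝕜) 1) : Summable fun γ => ‖v γ‖ := by
  simpa using (lp.memℓp v).summable (by simp)

theorem l1_norm (v : lp (fun _ : Γ => 𝕜) 1) : ‖v‖ = ∑' γ, ‖v γ‖ := by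
  rw [lp.norm_eq_tsum_rpow (by simp)]
  simp

theorem pair_summable (h : Γ → 𝕜) {C : ℝ} (hC : ∀ γ, ‖h γ‖ ≤ C) (v : lp (fun _ : Γ => 𝕜) 1) :
    Summable fun γ => h γ * v γ := by
  refine Summable.of_norm_bounded ((l1_summable v).mul_left C) fun γ => ?_
  rw [norm_mul]
  exact mul_le_mul_of_nonneg_right (hC γ) (norm_nonneg _)

/-- The functional on `ℓ₁(Γ)` given by a bounded family. -/
noncomputable def pair (h : Γ → 𝕜) (C : ℝ) (hC : ∀ γ, ‖h γ‖ ≤ C) :
    lp (fun _ : Γ => 𝕜) 1 →L[𝕜] 𝕜 :=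
  LinearMap.mkContinuous
    { toFun := fun v => ∑' γ, h γ * v γ
      map_add' := fun v w => by
        rw [← (pair_summable h hC v).tsum_add (pair_summable h hC w)]
        refine tsum_congr fun γ => ?_
        rw [lp.coeFn_add, Pi.add_apply, mul_add]
      map_smul' := fun c v => by
        rw [RingHom.id_apply, smul_eq_mul, ← tsum_mul_left]
        refine tsum_congr fun γ => ?_
        rw [lp.coeFn_smul, Pi.smul_apply, smul_eq_mul]
        ring } C (fun v => by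
      rw [l1_norm, ← tsum_mul_left]
      refine tsum_of_norm_bounded ((l1_summable v).mul_left C).hasSum fun γ => ?_
      rw [norm_mul]
      exact mul_le_mul_of_nonneg_right (hC γ) (norm_nonneg _))

theorem pair_apply (h : Γ → 𝕜) (C : ℝ) (hC : ∀ γ, ‖h γ‖ ≤ C) (v : lp (fun _ : Γ => 𝕜) 1) :
    pair h C hC v = ∑' γ, h γ * v γ := rfl

variable [DecidableEq Γ]

theorem pair_single (h : Γ → 𝕜) (C : ℝ) (hC : ∀ γ, ‖h γ‖ ≤ C) (γ : Γ) (c : 𝕜) :
    pair h C hC (lp.single 1 γ c) = h γ * c := by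
  rw [pair_apply, tsum_eq_single γ]
  · rw [lp.single_apply_self]
  · intro δ hδ
    rw [lp.single_apply_ne _ _ _ hδ, mul_zero]

end pairing

section main

variable {𝕜 : Type*} [RCLike 𝕜] {X : Type*} [NormedAddCommGroup X] [NormedSpace 𝕜 X]

/-- The tail of a vector. -/
noncomputable def tail (e : ℕ → X) (es : ℕ → (X →L[𝕜] 𝕜)) (k : ℕ) (y : X) : X :=
  y - ∑ i ∈ Finset.range k, es i y • e i

theorem es_tail {e : ℕ → X} {es : ℕ → (X →L[𝕜] 𝕜)}
    (hb : ∀ i j, es i (e j) = if i = j then 1 else 0) (n k : ℕ) (y : X) :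
    es n (tail e es k y) = if n < k then 0 else es n y := by
  rw [tail, map_sub, map_sum]
  simp only [map_smul, hb, smul_eq_mul, mul_ite, mul_one, mul_zero]
  rw [Finset.sum_ite_eq]
  simp only [Finset.mem_range]
  split_ifs
  · exact sub_self _
  · exact sub_zero _

/-- The index set. -/
abbrev Gam (X : Type*) [NormedAddCommGroup X] : Type _ := {y : X // ‖y‖ ≤ 1} × ℕ

/-- The functionals on the second summand. -/
noncomputable def hh (e : ℕ → X) (es : ℕ → (X →L[𝕜] 𝕜)) (n : ℕ) (γ : Gam X) : 𝕜 :=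
  -((γ.2 : 𝕜) * es n (tail e es γ.2 γ.1))

theorem hh_bound {e : ℕ → X} {es : ℕ → (X →L[𝕜] 𝕜)}
    (hb : ∀ i j, es i (e j) = if i = j then 1 else 0) (n : ℕ) (γ : Gam X) :
    ‖hh e es n γ‖ ≤ n * ‖es n‖ := by
  rw [hh, norm_neg, es_tail hb, norm_mul]
  split_ifs with h
  · rw [norm_zero, mul_zero]
    positivity
  · rw [RCLike.norm_natCast]
    have h1 : (γ.2 : ℝ) ≤ n := by exact_mod_cast not_lt.1 h
    have h2 : ‖es n (γ.1 : X)‖ ≤ ‖es n‖ := by
      refine ((es n).le_opNorm _).trans ?_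
      have := γ.1.2
      have := norm_nonneg (es n)
      nlinarith
    exact mul_le_mul h1 h2 (norm_nonneg _) (by positivity)

open Classical in
/-- The vectors of the M-basis. -/
noncomputable def vec (e : ℕ → X) (es : ℕ → (X →L[𝕜] 𝕜)) :
    ℕ ⊕ Gam X → X × lp (fun _ : Gam X => 𝕜) 1
  | Sum.inl n => (e n, 0)
  | Sum.inr γ => ((γ.2 : 𝕜) • tail e es γ.2 γ.1, lp.single 1 γ 1)

/-- The functionals of the M-basis. -/
noncomputable def fnl (e : ℕ → X) (es : ℕ → (X →L[𝕜] 𝕜))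
    (hb : ∀ i j, es i (e j) = if i = j then 1 else 0) :
    ℕ ⊕ Gam X → (X × lp (fun _ : Gam X => 𝕜) 1 →L[𝕜] 𝕜)
  | Sum.inl n => (es n).coprod (pair (hh e es n) (n * ‖es n‖) (hh_bound hb n))
  | Sum.inr γ => (lp.evalCLM 𝕜 (fun _ : Gam X => 𝕜) 1 γ).comp (ContinuousLinearMap.snd 𝕜 X _)

theorem fnl_inl (e : ℕ → X) (es : ℕ → (X →L[𝕜] 𝕜))
    (hb : ∀ i j, es i (e j) = if i = j then 1 else 0) (n : ℕ)
    (p : X × lp (fun _ : Gam X => 𝕜) 1) :
    fnl e es hb (Sum.inl n) p = es n p.1 + pair (hh e es n) (n * ‖es n‖) (hh_bound hb n) p.2 :=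
  rfl

theorem fnl_inr (e : ℕ → X) (es : ℕ → (X →L[𝕜] 𝕜))
    (hb : ∀ i j, es i (e j) = if i = j then 1 else 0) (γ : Gam X)
    (p : X × lp (fun _ : Gam X => 𝕜) 1) : fnl e es hb (Sum.inr γ) p = p.2 γ := rfl

open Classical in
theorem biorth (e : ℕ → X) (es : ℕ → (X →L[𝕜] 𝕜))
    (hb : ∀ i j, es i (e j) = if i = j then 1 else 0) (i j : ℕ ⊕ Gam X) :
    fnl e es hb i (vec e es j) = if i = j then 1 else 0 := by
  rcases i with n | γ <;> rcases j with m | δ
  · rw [fnl_inl]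
    simp only [vec, map_zero, add_zero, hb, Sum.inl.injEq]
  · rw [fnl_inl]
    simp only [vec]
    rw [pair_single, map_smul, hh, smul_eq_mul, mul_one, add_neg_cancel, if_neg (by simp)]
  · rw [fnl_inr]
    simp [vec]
  · rw [fnl_inr]
    simp only [vec, Sum.inr.injEq]
    rw [lp.single_apply, Pi.single_apply]

theorem total (e : ℕ → X) (es : ℕ → (X →L[𝕜] 𝕜))
    (hb : ∀ i j, es i (e j) = if i = j then 1 else 0)
    (ht : ∀ u : X, (∀ n, es n u = 0) → u = 0) (p : X × lp (fun _ : Gam X => 𝕜) 1)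
    (hp : ∀ i, fnl e es hb i p = 0) : p = 0 := by
  have h1 : p.2 = 0 := by
    ext γ
    exact hp (Sum.inr γ)
  have h2 : p.1 = 0 := by
    refine ht _ fun n => ?_
    have := hp (Sum.inl n)
    rwa [fnl_inl, h1, map_zero, add_zero] at this
  exact Prod.ext h2 h1

theorem fundamental (e : ℕ → X) (es : ℕ → (X →L[𝕜] 𝕜)) :
    (Submodule.span 𝕜 (Set.range (vec e es))).topologicalClosure = ⊤ := by
  classical
  set S := (Submodule.span 𝕜 (Set.range (vec e es))).topologicalClosure with hS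
  have hcl : IsClosed (S : Set (X × lp (fun _ : Gam X => 𝕜) 1)) :=
    Submodule.isClosed_topologicalClosure _
  have hv : ∀ i, vec e es i ∈ S := fun i =>
    Submodule.le_topologicalClosure _ (Submodule.subset_span ⟨i, rfl⟩)
  -- the unit ball of the first summand
  have hy : ∀ y : X, ‖y‖ ≤ 1 → ((y, 0) : X × lp (fun _ : Gam X => 𝕜) 1) ∈ S := by
    intro y hy
    have hlim : Tendsto (fun k : ℕ => ((y, ((k + 1 : ℕ) : 𝕜)⁻¹ •
        lp.single 1 ((⟨y, hy⟩, k + 1) : Gam X) (1 : 𝕜)) : X × lp (fun _ : Gam X => 𝕜) 1))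
        atTop (𝓝 (y, 0)) := by
      refine Tendsto.prodMk_nhds tendsto_const_nhds ?_
      rw [tendsto_zero_iff_norm_tendsto_zero]
      have h1 : ∀ k : ℕ, ‖((k + 1 : ℕ) : 𝕜)⁻¹ •
          (lp.single 1 ((⟨y, hy⟩, k + 1) : Gam X) (1 : 𝕜) : lp (fun _ : Gam X => 𝕜) 1)‖ =
          1 / ((k : ℝ) + 1) := by
        intro k
        rw [norm_smul, lp.norm_single (by simp), norm_inv, RCLike.norm_natCast, norm_one, mul_one]
        push_cast
        rw [one_div]
      simp only [h1]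
      exact tendsto_one_div_add_atTop_nhds_zero_nat
    refine hcl.mem_of_tendsto hlim (Eventually.of_forall fun k => ?_)
    have hk : ((k + 1 : ℕ) : 𝕜) ≠ 0 := by exact_mod_cast Nat.succ_ne_zero k
    have h2 : ((y, ((k + 1 : ℕ) : 𝕜)⁻¹ • lp.single 1 ((⟨y, hy⟩, k + 1) : Gam X) (1 : 𝕜)) :
        X × lp (fun _ : Gam X => 𝕜) 1) =
        ((k + 1 : ℕ) : 𝕜)⁻¹ • vec e es (Sum.inr (⟨y, hy⟩, k + 1)) +
          ∑ i ∈ Finset.range (k + 1), es i y • vec e es (Sum.inl i) := by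
      refine Prod.ext ?_ ?_
      · rw [Prod.fst_add, Prod.smul_fst, Prod.fst_sum]
        simp only [vec, Prod.smul_mk, smul_smul, inv_mul_cancel₀ hk, one_smul, tail]
        abel
      · rw [Prod.snd_add, Prod.smul_snd, Prod.snd_sum]
        simp only [vec, Prod.smul_mk, smul_zero, Finset.sum_const_zero, add_zero]
    rw [h2]
    exact S.add_mem (S.smul_mem _ (hv _)) (S.sum_mem fun i _ => S.smul_mem _ (hv _))
  have hX : ∀ y : X, ((y, 0) : X × lp (fun _ : Gam X => 𝕜) 1) ∈ S := by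
    intro y
    by_cases h0 : y = 0
    · subst h0
      exact S.zero_mem
    · have hn : 0 < ‖y‖ := norm_pos_iff.2 h0
      have hn' : ((‖y‖ : ℝ) : 𝕜) ≠ 0 := by
        rw [Ne, RCLike.ofReal_eq_zero]
        exact hn.ne'
      have h1 := hy (((‖y‖ : ℝ) : 𝕜)⁻¹ • y) (by
        rw [norm_smul, norm_inv, RCLike.norm_ofReal, abs_of_pos hn, inv_mul_cancel₀ hn.ne'])
      have h2 := S.smul_mem ((‖y‖ : ℝ) : 𝕜) h1
      rw [Prod.smul_mk, smul_smul, mul_inv_cancel₀ hn', one_smul, smul_zero] at h2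
      exact h2
  have hsingle : ∀ γ : Gam X, ((0, lp.single 1 γ 1) : X × lp (fun _ : Gam X => 𝕜) 1) ∈ S := by
    intro γ
    have h1 := S.sub_mem (hv (Sum.inr γ)) (hX ((γ.2 : 𝕜) • tail e es γ.2 γ.1))
    have h2 : vec e es (Sum.inr γ) - ((γ.2 : 𝕜) • tail e es γ.2 γ.1, 0) =
        ((0, lp.single 1 γ 1) : X × lp (fun _ : Gam X => 𝕜) 1) := by
      refine Prod.ext ?_ ?_
      · simp only [vec, Prod.fst_sub, sub_self]
      · simp only [vec, Prod.snd_sub, sub_zero]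
    rwa [h2] at h1
  have hL : ∀ v : lp (fun _ : Gam X => 𝕜) 1, ((0, v) : X × lp (fun _ : Gam X => 𝕜) 1) ∈ S := by
    intro v
    have h1 := lp.hasSum_single (p := 1) ENNReal.one_ne_top v
    have h2 : HasSum (fun γ : Gam X =>
        ((0, lp.single 1 γ (v γ)) : X × lp (fun _ : Gam X => 𝕜) 1)) (0, v) :=
      h1.mapL (ContinuousLinearMap.inr 𝕜 X (lp (fun _ : Gam X => 𝕜) 1))
    refine hcl.mem_of_tendsto h2 (Eventually.of_forall fun s => S.sum_mem fun γ _ => ?_)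
    have h3 := S.smul_mem (v γ) (hsingle γ)
    rw [Prod.smul_mk, smul_zero, ← lp.single_smul, smul_eq_mul, mul_one] at h3
    exact h3
  rw [eq_top_iff]
  rintro ⟨y, v⟩ -
  have := S.add_mem (hX y) (hL v)
  rwa [Prod.mk_add_mk, add_zero, zero_add] at this

end main

end Pool.Agent.N312.MBL

namespace Pool.Agent.N312.MBL

open Classical in
/-- The case `X = ℓ^∞`. -/
theorem linf (𝕜 : Type) [RCLike 𝕜] :
    ∃ (I : Type)
      (x : I → lp (fun _ : ℕ => 𝕜) ⊤ × lp (fun _ : Gam (lp (fun _ : ℕ => 𝕜) ⊤) => 𝕜) 1)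
      (f : I → (lp (fun _ : ℕ => 𝕜) ⊤ × lp (fun _ : Gam (lp (fun _ : ℕ => 𝕜) ⊤) => 𝕜) 1
        →L[𝕜] 𝕜)),
      (∀ i, f i (x i) = 1) ∧ (∀ i j, i ≠ j → f i (x j) = 0) ∧
      (Submodule.span 𝕜 (Set.range x)).topologicalClosure = ⊤ ∧
      ∀ y, (∀ i, f i y = 0) → y = 0 := by
  let e : ℕ → lp (fun _ : ℕ => 𝕜) ⊤ := fun n => lp.single ⊤ n 1
  let es : ℕ → (lp (fun _ : ℕ => 𝕜) ⊤ →L[𝕜] 𝕜) := fun n =>
    lp.evalCLM 𝕜 (fun _ : ℕ => 𝕜) ⊤ n
  have hb : ∀ i j, es i (e j) = if i = j then 1 else 0 := by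
    intro i j
    change (lp.single ⊤ j (1 : 𝕜) : lp (fun _ : ℕ => 𝕜) ⊤) i = _
    rw [lp.single_apply, Pi.single_apply]
  have ht : ∀ u : lp (fun _ : ℕ => 𝕜) ⊤, (∀ n, es n u = 0) → u = 0 := by
    intro u hu
    ext n
    exact hu n
  refine ⟨ℕ ⊕ Gam (lp (fun _ : ℕ => 𝕜) ⊤), vec e es, fnl e es hb, fun i => ?_, fun i j hij => ?_,
    fundamental e es, total e es hb ht⟩
  · rw [biorth, if_pos rfl]
  · rw [biorth, if_neg hij]

/-- The first summand of a product is a closed subspace isometric to the space itself. -/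
theorem contains_fst (𝕜 : Type*) [RCLike 𝕜] (X Y : Type*) [NormedAddCommGroup X] [NormedSpace 𝕜 X]
    [CompleteSpace X] [NormedAddCommGroup Y] [NormedSpace 𝕜 Y] :
    ∃ G : Submodule 𝕜 (X × Y), IsClosed (G : Set (X × Y)) ∧ Nonempty (G ≃L[𝕜] X) := by
  let J : X →ₗᵢ[𝕜] X × Y := ⟨LinearMap.inl 𝕜 X Y, fun u => by simp [Prod.norm_def]⟩
  exact ⟨LinearMap.range J.toLinearMap, J.isometry.isClosedEmbedding.isClosed_range,
    ⟨J.equivRange.symm.toContinuousLinearEquiv⟩⟩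

end Pool.Agent.N312.MBL
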