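import Mathlib

set_option autoImplicit false

/-!
# Complete biorthogonal systems of spaces with separable dual (Markushevich)
-/

namespace Pool.Agent.N312.SBio

open Topology Filter

universe u v

/-- recursive construction of a sequence with a property of its initial segments -/
theorem exists_seq_of_step {α : Type*} [Nonempty α] (P : ℕ → (ℕ → α) → Prop)
    (h0 : ∀ p, P 0 p) (hstep : ∀ n p, P n p → ∃ a, P (n + 1) (Function.update p n a))
    (hcongr : ∀ n p q, (∀ i < n, p i = q i) → P n p → P n q) : ∃ p : ℕ → α, ∀ n, P n p := by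
  classical
  choose! F hF using hstep
  let a0 : α := Classical.arbitrary α
  let s : ℕ → (ℕ → α) := fun n => Nat.rec (fun _ => a0) (fun n p => Function.update p n (F n p)) n
  have hs : ∀ n, s (n + 1) = Function.update (s n) n (F n (s n)) := fun n => rfl
  have hP : ∀ n, P n (s n) := by
    intro n
    induction n with
    | zero => exact h0 _
    | succ n ih =>
      rw [hs]
      exact hF n _ ih
  have hag : ∀ n i, i < n → s n i = s (i + 1) i := by
    intro n
    induction n with
    | zero => intro i hi; omega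
    | succ n ih =>
      intro i hi
      rcases Nat.lt_succ_iff_lt_or_eq.1 hi with h | h
      · rw [hs, Function.update_of_ne (by omega)]
        exact ih i h
      · rw [h]
  exact ⟨fun i => s (i + 1) i, fun n => hcongr n (s n) _ (fun i hi => hag n i hi) (hP n)⟩

variable {𝕜 : Type u} [RCLike 𝕜] {E : Type v} [NormedAddCommGroup E] [NormedSpace 𝕜 E]

/-- In an infinite-dimensional vector space, finitely many linear functionals have a common nonzero
zero. -/
theorem exists_common_zero {V : Type*} [AddCommGroup V] [Module 𝕜 V]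
    (hV : ¬ FiniteDimensional 𝕜 V) (n : ℕ) (φ : ℕ → V →ₗ[𝕜] 𝕜) :
    ∃ v : V, v ≠ 0 ∧ ∀ i < n, φ i v = 0 := by
  classical
  let T : V →ₗ[𝕜] (Fin n → 𝕜) := LinearMap.pi fun i => φ i
  have hT : ¬ Function.Injective T := fun h => hV (FiniteDimensional.of_injective T h)
  rw [← LinearMap.ker_eq_bot, Submodule.eq_bot_iff] at hT
  push Not at hT
  obtain ⟨v, hv, hv0⟩ := hT
  refine ⟨v, hv0, fun i hi => ?_⟩
  have := congrFun (LinearMap.mem_ker.1 hv) ⟨i, hi⟩
  simpa [T] using this

/-- the biorthogonality of an initial segment -/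
def Bi (n : ℕ) (p : ℕ → E × StrongDual 𝕜 E) : Prop :=
  ∀ i < n, ∀ j < n, (p i).2 (p j).1 = if i = j then 1 else 0

theorem bi_update {n : ℕ} {p : ℕ → E × StrongDual 𝕜 E} (h : Bi n p) {z : E} {φ : StrongDual 𝕜 E}
    (h1 : φ z = 1) (h2 : ∀ i < n, (p i).2 z = 0) (h3 : ∀ i < n, φ (p i).1 = 0) :
    Bi (n + 1) (Function.update p n (z, φ)) := by
  intro i hi j hj
  rcases Nat.lt_succ_iff_lt_or_eq.1 hi with hi' | rfl
  · rcases Nat.lt_succ_iff_lt_or_eq.1 hj with hj' | rfl
    · rw [Function.update_of_ne (by omega), Function.update_of_ne (by omega)]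
      exact h i hi' j hj'
    · rw [Function.update_of_ne (by omega), Function.update_self, if_neg (by omega)]
      exact h2 i hi'
  · rcases Nat.lt_succ_iff_lt_or_eq.1 hj with hj' | rfl
    · rw [Function.update_of_ne (a := j) (by omega), Function.update_self, if_neg (by omega)]
      exact h3 j hj'
    · rw [Function.update_self, if_pos rfl]
      exact h1

/-- a step adding a vector to the span -/
theorem step_vec (hE : ¬ FiniteDimensional 𝕜 E) {n : ℕ} {p : ℕ → E × StrongDual 𝕜 E} (h : Bi n p)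
    (d : E) : ∃ z : E, ∃ φ : StrongDual 𝕜 E, φ z = 1 ∧ (∀ i < n, (p i).2 z = 0) ∧
      (∀ i < n, φ (p i).1 = 0) ∧
      (d - ∑ i ∈ Finset.range n, (p i).2 d • (p i).1 = z ∨
        d - ∑ i ∈ Finset.range n, (p i).2 d • (p i).1 = 0) := by
  classical
  set r : E := d - ∑ i ∈ Finset.range n, (p i).2 d • (p i).1 with hr
  have key : ∃ z : E, z ≠ 0 ∧ (∀ i < n, (p i).2 z = 0) ∧ (r = z ∨ r = 0) := by
    by_cases h0 : r = 0
    · obtain ⟨z, hz0, hz⟩ := exists_common_zero hE n (fun i => (p i).2.toLinearMap)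
      exact ⟨z, hz0, hz, Or.inr h0⟩
    · refine ⟨r, h0, fun i hi => ?_, Or.inl rfl⟩
      rw [hr, map_sub, map_sum]
      have : ∑ x ∈ Finset.range n, (p i).2 ((p x).2 d • (p x).1) = (p i).2 d := by
        rw [Finset.sum_eq_single i]
        · rw [map_smul, h i hi i hi, if_pos rfl, smul_eq_mul, mul_one]
        · intro j hj hji
          rw [map_smul, h i hi j (Finset.mem_range.1 hj), if_neg (Ne.symm hji), smul_zero]
        · intro hi'
          exact (hi' (Finset.mem_range.2 hi)).elim
      rw [this, sub_self]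
  obtain ⟨z, hz0, hz, hrz⟩ := key
  obtain ⟨ψ, _, hψ⟩ := exists_dual_vector 𝕜 z (norm_ne_zero_iff.2 hz0)
  have hz' : ((‖z‖ : ℝ) : 𝕜) ≠ 0 := by exact_mod_cast norm_ne_zero_iff.2 hz0
  obtain ⟨χ, hχz⟩ : ∃ χ : StrongDual 𝕜 E, χ z = 1 :=
    ⟨((‖z‖ : ℝ) : 𝕜)⁻¹ • ψ, by
      rw [_root_.smul_apply, hψ, smul_eq_mul, inv_mul_cancel₀ hz']⟩
  refine ⟨z, χ - ∑ i ∈ Finset.range n, χ (p i).1 • (p i).2, ?_, hz, fun j hj => ?_, hrz⟩
  · rw [_root_.sub_apply, FunLike.coe_sum, Finset.sum_apply, Finset.sum_eq_zero, sub_zero, hχz]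
    intro i hi
    rw [_root_.smul_apply, hz i (Finset.mem_range.1 hi), smul_zero]
  · rw [_root_.sub_apply, FunLike.coe_sum, Finset.sum_apply, Finset.sum_eq_single j]
    · rw [_root_.smul_apply, h j hj j hj, if_pos rfl, smul_eq_mul, mul_one, sub_self]
    · intro i hi hij
      rw [_root_.smul_apply, h i (Finset.mem_range.1 hi) j hj, if_neg hij, smul_zero]
    · intro hj'
      exact (hj' (Finset.mem_range.2 hj)).elim

/-- a step adding a functional to the span -/
theorem step_fun (hE : ¬ FiniteDimensional 𝕜 (StrongDual 𝕜 E)) {n : ℕ}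
    {p : ℕ → E × StrongDual 𝕜 E} (h : Bi n p)
    (d : StrongDual 𝕜 E) : ∃ z : E, ∃ φ : StrongDual 𝕜 E, φ z = 1 ∧ (∀ i < n, (p i).2 z = 0) ∧
      (∀ i < n, φ (p i).1 = 0) ∧
      (d - ∑ i ∈ Finset.range n, d (p i).1 • (p i).2 = φ ∨
        d - ∑ i ∈ Finset.range n, d (p i).1 • (p i).2 = 0) := by
  classical
  set r : StrongDual 𝕜 E := d - ∑ i ∈ Finset.range n, d (p i).1 • (p i).2 with hr
  have key : ∃ φ : StrongDual 𝕜 E, φ ≠ 0 ∧ (∀ i < n, φ (p i).1 = 0) ∧ (r = φ ∨ r = 0) := by
    by_cases h0 : r = 0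
    · obtain ⟨z, hz0, hz⟩ := exists_common_zero hE n
        (fun i => ((ContinuousLinearMap.apply 𝕜 𝕜 (p i).1 : StrongDual 𝕜 (StrongDual 𝕜 E))
          ).toLinearMap)
      exact ⟨z, hz0, hz, Or.inr h0⟩
    · refine ⟨r, h0, fun j hj => ?_, Or.inl rfl⟩
      rw [hr, _root_.sub_apply, FunLike.coe_sum, Finset.sum_apply, Finset.sum_eq_single j]
      · rw [_root_.smul_apply, h j hj j hj, if_pos rfl, smul_eq_mul, mul_one, sub_self]
      · intro i hi hij
        rw [_root_.smul_apply, h i (Finset.mem_range.1 hi) j hj, if_neg hij, smul_zero]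
      · intro hj'
        exact (hj' (Finset.mem_range.2 hj)).elim
  obtain ⟨φ, hφ0, hφ, hrφ⟩ := key
  obtain ⟨v, hv⟩ : ∃ v, φ v ≠ 0 := by
    by_contra hcon
    push Not at hcon
    exact hφ0 (ContinuousLinearMap.ext hcon)
  set w : E := (φ v)⁻¹ • v with hw
  have hφw : φ w = 1 := by rw [hw, map_smul, smul_eq_mul, inv_mul_cancel₀ hv]
  refine ⟨w - ∑ i ∈ Finset.range n, (p i).2 w • (p i).1, φ, ?_, fun i hi => ?_, hφ, hrφ⟩
  · rw [map_sub, map_sum, Finset.sum_eq_zero, sub_zero, hφw]
    intro i hi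
    rw [map_smul, hφ i (Finset.mem_range.1 hi), smul_zero]
  · rw [map_sub, map_sum]
    have : ∑ x ∈ Finset.range n, (p i).2 ((p x).2 w • (p x).1) = (p i).2 w := by
      rw [Finset.sum_eq_single i]
      · rw [map_smul, h i hi i hi, if_pos rfl, smul_eq_mul, mul_one]
      · intro j hj hji
        rw [map_smul, h i hi j (Finset.mem_range.1 hj), if_neg (Ne.symm hji), smul_zero]
      · intro hi'
        exact (hi' (Finset.mem_range.2 hi)).elim
    rw [this, sub_self]

/-- Markushevich, with prescribed countable sets of vectors and functionals. -/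
theorem exists_biorth_seq (hE : ¬ FiniteDimensional 𝕜 E)
    (hE' : ¬ FiniteDimensional 𝕜 (StrongDual 𝕜 E)) (a : ℕ → E) (b : ℕ → StrongDual 𝕜 E) :
    ∃ (x : ℕ → E) (f : ℕ → StrongDual 𝕜 E), (∀ i j, f i (x j) = if i = j then 1 else 0) ∧
      (∀ k, a k ∈ Submodule.span 𝕜 (Set.range x)) ∧
      (∀ k, b k ∈ Submodule.span 𝕜 (Set.range f)) := by
  classical
  let P : ℕ → (ℕ → E × StrongDual 𝕜 E) → Prop := fun n p =>
    Bi n p ∧ (∀ k, 2 * k < n → a k ∈ Submodule.span 𝕜 ((fun i => (p i).1) '' Set.Iio n)) ∧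
      (∀ k, 2 * k + 1 < n → b k ∈ Submodule.span 𝕜 ((fun i => (p i).2) '' Set.Iio n))
  have hcongr : ∀ n p q, (∀ i < n, p i = q i) → P n p → P n q := by
    intro n p q hpq hp
    have e1 : (fun i => (p i).1) '' Set.Iio n = (fun i => (q i).1) '' Set.Iio n :=
      Set.image_congr fun i hi => by rw [hpq i hi]
    have e2 : (fun i => (p i).2) '' Set.Iio n = (fun i => (q i).2) '' Set.Iio n :=
      Set.image_congr fun i hi => by rw [hpq i hi]
    refine ⟨fun i hi j hj => ?_, fun k hk => ?_, fun k hk => ?_⟩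
    · rw [← hpq i hi, ← hpq j hj]; exact hp.1 i hi j hj
    · rw [← e1]; exact hp.2.1 k hk
    · rw [← e2]; exact hp.2.2 k hk
  have hmono1 : ∀ (n : ℕ) (p : ℕ → E × StrongDual 𝕜 E) (c : E × StrongDual 𝕜 E),
      Submodule.span 𝕜 ((fun i => (p i).1) '' Set.Iio n) ≤
        Submodule.span 𝕜 ((fun i => ((Function.update p n c) i).1) '' Set.Iio (n + 1)) := by
    intro n p c
    refine Submodule.span_mono ?_
    rintro _ ⟨i, hi, rfl⟩
    refine ⟨i, Set.mem_Iio.2 (Nat.lt_succ_of_lt hi), ?_⟩
    have : i ≠ n := ne_of_lt hi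
    simp [Function.update_of_ne this]
  have hmono2 : ∀ (n : ℕ) (p : ℕ → E × StrongDual 𝕜 E) (c : E × StrongDual 𝕜 E),
      Submodule.span 𝕜 ((fun i => (p i).2) '' Set.Iio n) ≤
        Submodule.span 𝕜 ((fun i => ((Function.update p n c) i).2) '' Set.Iio (n + 1)) := by
    intro n p c
    refine Submodule.span_mono ?_
    rintro _ ⟨i, hi, rfl⟩
    refine ⟨i, Set.mem_Iio.2 (Nat.lt_succ_of_lt hi), ?_⟩
    have : i ≠ n := ne_of_lt hi
    simp [Function.update_of_ne this]
  have hstep : ∀ n p, P n p → ∃ c, P (n + 1) (Function.update p n c) := by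
    intro n p hp
    rcases Nat.even_or_odd' n with ⟨k, hk | hk⟩
    · obtain ⟨z, φ, h1, h2, h3, h4⟩ := step_vec hE hp.1 (a k)
      refine ⟨(z, φ), bi_update hp.1 h1 h2 h3, fun l hl => ?_, fun l hl => ?_⟩
      · rcases Nat.lt_succ_iff_lt_or_eq.1 hl with hl' | hl'
        · exact hmono1 n p _ (hp.2.1 l hl')
        · have : l = k := by omega
          subst this
          have hsum : ∑ i ∈ Finset.range n, (p i).2 (a l) • (p i).1 ∈
              Submodule.span 𝕜 ((fun i => (p i).1) '' Set.Iio n) :=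
            Submodule.sum_mem _ fun i hi => Submodule.smul_mem _ _
              (Submodule.subset_span ⟨i, Finset.mem_range.1 hi, rfl⟩)
          have e : a l = (a l - ∑ i ∈ Finset.range n, (p i).2 (a l) • (p i).1) +
              ∑ i ∈ Finset.range n, (p i).2 (a l) • (p i).1 := by abel
          rw [e]
          refine Submodule.add_mem _ ?_ (hmono1 n p _ hsum)
          rcases h4 with h4 | h4
          · rw [h4]
            refine Submodule.subset_span ⟨n, Set.mem_Iio.2 (Nat.lt_succ_self n), ?_⟩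
            simp
          · rw [h4]; exact Submodule.zero_mem _
      · have : 2 * l + 1 < n := by omega
        exact hmono2 n p _ (hp.2.2 l this)
    · obtain ⟨z, φ, h1, h2, h3, h4⟩ := step_fun hE' hp.1 (b k)
      refine ⟨(z, φ), bi_update hp.1 h1 h2 h3, fun l hl => ?_, fun l hl => ?_⟩
      · have : 2 * l < n := by omega
        exact hmono1 n p _ (hp.2.1 l this)
      · rcases Nat.lt_succ_iff_lt_or_eq.1 hl with hl' | hl'
        · exact hmono2 n p _ (hp.2.2 l hl')
        · have : l = k := by omega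
          subst this
          have hsum : ∑ i ∈ Finset.range n, b l (p i).1 • (p i).2 ∈
              Submodule.span 𝕜 ((fun i => (p i).2) '' Set.Iio n) :=
            Submodule.sum_mem _ fun i hi => Submodule.smul_mem _ _
              (Submodule.subset_span ⟨i, Finset.mem_range.1 hi, rfl⟩)
          have e : b l = (b l - ∑ i ∈ Finset.range n, b l (p i).1 • (p i).2) +
              ∑ i ∈ Finset.range n, b l (p i).1 • (p i).2 := by abel
          rw [e]
          refine Submodule.add_mem _ ?_ (hmono2 n p _ hsum)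
          rcases h4 with h4 | h4
          · rw [h4]
            refine Submodule.subset_span ⟨n, Set.mem_Iio.2 (Nat.lt_succ_self n), ?_⟩
            simp
          · rw [h4]; exact Submodule.zero_mem _
  obtain ⟨p, hp⟩ := exists_seq_of_step P
    (fun p => ⟨fun i hi => by omega, fun k hk => by omega, fun k hk => by omega⟩) hstep hcongr
  refine ⟨fun i => (p i).1, fun i => (p i).2, fun i j => ?_, fun k => ?_, fun k => ?_⟩
  · exact (hp (i + j + 1)).1 i (by omega) j (by omega)
  · exact Submodule.span_mono (Set.image_subset_range _ _) ((hp (2 * k + 1)).2.1 k (by omega))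
  · exact Submodule.span_mono (Set.image_subset_range _ _) ((hp (2 * k + 2)).2.2 k (by omega))

/-- Markushevich: a normed space with separable dual has a biorthogonal system which is complete
both in the space and in the dual. -/
theorem exists_shrinking_biorth (hE : ¬ FiniteDimensional 𝕜 E)
    [TopologicalSpace.SeparableSpace (StrongDual 𝕜 E)] :
    ∃ (x : ℕ → E) (f : ℕ → StrongDual 𝕜 E), (∀ i j, f i (x j) = if i = j then 1 else 0) ∧
      Dense (Submodule.span 𝕜 (Set.range x) : Set E) ∧
      Dense (Submodule.span 𝕜 (Set.range f) : Set (StrongDual 𝕜 E)) := by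
  classical
  have hE' : ¬ FiniteDimensional 𝕜 (StrongDual 𝕜 E) := by
    intro hfin
    -- the evaluation map into the (finite-dimensional) bidual is injective
    apply hE
    have hfin2 : FiniteDimensional 𝕜 (Module.Dual 𝕜 (StrongDual 𝕜 E)) := inferInstance
    let T : E →ₗ[𝕜] Module.Dual 𝕜 (StrongDual 𝕜 E) :=
      { toFun := fun v =>
          { toFun := fun g => g v
            map_add' := fun _ _ => rfl
            map_smul' := fun _ _ => rfl }
        map_add' := fun v w => by ext g; exact map_add g v w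
        map_smul' := fun c v => by ext g; exact map_smul g c v }
    refine FiniteDimensional.of_injective T fun v w hvw => ?_
    by_contra hne
    have hne' : ‖v - w‖ ≠ 0 := norm_ne_zero_iff.2 (sub_ne_zero.2 hne)
    obtain ⟨g, _, hg⟩ := exists_dual_vector 𝕜 (v - w) hne'
    have : g v = g w := LinearMap.congr_fun hvw g
    rw [map_sub, this, sub_self] at hg
    exact hne' (by exact_mod_cast hg.symm)
  set b : ℕ → StrongDual 𝕜 E := TopologicalSpace.denseSeq (StrongDual 𝕜 E) with hb
  have hbd : DenseRange b := TopologicalSpace.denseRange_denseSeq _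
  -- almost norming vectors
  have hnorm : ∀ g : StrongDual 𝕜 E, ∃ v : E, ‖v‖ ≤ 1 ∧ ‖g‖ ≤ 2 * ‖g v‖ := by
    intro g
    by_cases hg : g = 0
    · exact ⟨0, by simp, by simp [hg]⟩
    · have hgpos : 0 < ‖g‖ := norm_pos_iff.2 hg
      by_contra hcon
      push Not at hcon
      have : ‖g‖ ≤ ‖g‖ / 2 := by
        refine ContinuousLinearMap.opNorm_le_of_unit_norm (by positivity) fun v hv => ?_
        have := hcon v hv.le
        linarith
      linarith
  choose v hv1 hv2 using hnorm
  obtain ⟨x, f, h1, h2, h3⟩ := exists_biorth_seq hE hE' (fun k => v (b k)) b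
  refine ⟨x, f, h1, ?_, ?_⟩
  · rw [Submodule.dense_iff_topologicalClosure_eq_top]
    by_contra hne
    set S : Submodule 𝕜 E := (Submodule.span 𝕜 (Set.range x)).topologicalClosure with hS
    have hScl : IsClosed (S : Set E) := Submodule.isClosed_topologicalClosure _
    obtain ⟨w, hw⟩ : ∃ w, w ∉ S := by
      by_contra hcon
      push Not at hcon
      exact hne (eq_top_iff.2 fun w _ => hcon w)
    have hne0 : (Submodule.Quotient.mk w : E ⧸ S) ≠ 0 := by
      rw [Ne, Submodule.Quotient.mk_eq_zero]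
      exact hw
    have hpos : ‖(Submodule.Quotient.mk w : E ⧸ S)‖ ≠ 0 := norm_ne_zero_iff.2 hne0
    obtain ⟨g, _, hg2⟩ := exists_dual_vector 𝕜 _ hpos
    set h : StrongDual 𝕜 E := g.comp S.mkQL with hh
    have hhS : ∀ s ∈ S, h s = 0 := by
      intro s hs
      change g (Submodule.Quotient.mk s) = 0
      rw [(Submodule.Quotient.mk_eq_zero S).2 hs, map_zero]
    have hh0 : h ≠ 0 := by
      intro h0
      have : g (Submodule.Quotient.mk w) = 0 := by
        change h w = 0
        rw [h0]; rfl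
      rw [hg2] at this
      exact hpos (by exact_mod_cast this)
    have hhpos : 0 < ‖h‖ := norm_pos_iff.2 hh0
    obtain ⟨k, hk⟩ := hbd.exists_dist_lt h (show 0 < ‖h‖ / 4 by positivity)
    rw [dist_eq_norm] at hk
    have e1 : h (v (b k)) = 0 :=
      hhS _ (Submodule.le_topologicalClosure _ (h2 k))
    have e2 : ‖b k (v (b k))‖ ≤ ‖h - b k‖ := by
      have : b k (v (b k)) = -((h - b k) (v (b k))) := by
        rw [_root_.sub_apply, e1, zero_sub, neg_neg]
      rw [this, norm_neg]
      refine ((h - b k).le_opNorm _).trans ?_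
      calc ‖h - b k‖ * ‖v (b k)‖ ≤ ‖h - b k‖ * 1 := by gcongr; exact hv1 _
        _ = ‖h - b k‖ := mul_one _
    have e3 : ‖h‖ ≤ ‖h - b k‖ + ‖b k‖ := by
      have : h = (h - b k) + b k := by abel
      calc ‖h‖ = ‖(h - b k) + b k‖ := by rw [← this]
        _ ≤ _ := norm_add_le _ _
    have e4 := hv2 (b k)
    linarith
  · refine hbd.mono ?_
    rintro _ ⟨k, rfl⟩
    exact h3 k

end Pool.Agent.N312.SBio
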