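import Mathlib

set_option autoImplicit false

/-!
# The combinatorics of the flattened perturbation
-/

namespace Pool.Agent.N312.SBio

/-- the index of the interval of a strictly increasing sequence containing a number -/
theorem exists_idx {φ : ℕ → ℕ} (hφ : StrictMono φ) (h0 : φ 0 = 0) :
    ∃ idx : ℕ → ℕ, ∀ b m, b ≤ idx m ↔ φ b ≤ m := by
  classical
  refine ⟨fun m => Nat.findGreatest (fun b => φ b ≤ m) m, fun b m => ⟨fun h => ?_, fun h => ?_⟩⟩
  · have h1 : φ (Nat.findGreatest (fun b => φ b ≤ m) m) ≤ m :=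
      Nat.findGreatest_spec (P := fun b => φ b ≤ m) (Nat.zero_le m) (by simp [h0])
    exact (hφ.monotone h).trans h1
  · exact Nat.le_findGreatest ((hφ.id_le b).trans h) h

/-- The combinatorial structure: `par` is the parent map (with `par m = m` for parents), the
children of a parent `n` form the interval `[lo n, hi n)`, the `s`-th generation of parents is
`[a s, b s)`. -/
structure Comb (RA RB : ℕ → ℕ → Prop) where
  par : ℕ → ℕ
  lo : ℕ → ℕ
  hi : ℕ → ℕ
  a : ℕ → ℕ
  b : ℕ → ℕ
  par_par : ∀ m, par (par m) = par m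
  child : ∀ n, par n = n → ∀ m, (par m = n ∧ m ≠ n) ↔ (lo n ≤ m ∧ m < hi n)
  init : ∀ s m, m < a s ↔ par m < a s
  parent : ∀ s n, a s ≤ n → n < b s → par n = n
  hRA : ∀ s, RA (a s) (b s)
  hRB : ∀ s n, a s ≤ n → n < b s → RB (lo n) (hi n)
  low : ∀ s n, a s ≤ n → n < b s → ∀ m, m < lo n ↔ (par m < n ∨ (n ≤ m ∧ m < b s))
  le_a : ∀ s, s ≤ a s

theorem exists_comb (RA RB : ℕ → ℕ → Prop) (h : ∀ q, ∃ q', q < q' ∧ RA q q' ∧ RB q q') :
    Nonempty (Comb RA RB) := by
  classical
  choose nxt hn1 hn2 hn3 using h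
  obtain ⟨q, hq0, hqs⟩ : ∃ q : ℕ → ℕ, q 0 = 0 ∧ ∀ n, q (n + 1) = nxt (q n) :=
    ⟨fun n => Nat.rec 0 (fun _ m => nxt m) n, rfl, fun n => rfl⟩
  have hq : StrictMono q := strictMono_nat_of_lt_succ fun n => by rw [hqs]; exact hn1 _
  obtain ⟨J, hJ0, hJs⟩ : ∃ J : ℕ → ℕ, J 0 = 0 ∧
      ∀ s, J (s + 1) = J s + 1 + (q (J s + 1) - q (J s)) :=
    ⟨fun n => Nat.rec 0 (fun _ j => j + 1 + (q (j + 1) - q j)) n, rfl, fun s => rfl⟩
  have hJ : StrictMono J := strictMono_nat_of_lt_succ fun n => by rw [hJs]; omega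
  obtain ⟨blk, hblk⟩ := exists_idx hq hq0
  have ha : StrictMono fun s => q (J s) := hq.comp hJ
  obtain ⟨σ, hσ⟩ := exists_idx ha (by simp only [hJ0, hq0])
  replace hσ : ∀ s m, s ≤ σ m ↔ q (J s) ≤ m := hσ
  -- basic facts
  have hq1 : ∀ m, q (blk m) ≤ m := fun m => (hblk _ _).1 le_rfl
  have hq2 : ∀ m, m < q (blk m + 1) := fun m => by
    by_contra hcon
    push Not at hcon
    have := (hblk _ _).2 hcon
    omega
  have ha1 : ∀ m, q (J (σ m)) ≤ m := fun m => (hσ _ _).1 le_rfl
  have ha2 : ∀ m, m < q (J (σ m + 1)) := fun m => by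
    by_contra hcon
    push Not at hcon
    have := (hσ _ _).2 hcon
    omega
  have hqm := hq.monotone
  have hσu : ∀ s m, q (J s) ≤ m → m < q (J (s + 1)) → σ m = s := by
    intro s m h1 h2
    have h3 := (hσ s m).2 h1
    by_contra hne
    have h4 : s + 1 ≤ σ m := by omega
    have h5 := (hσ (s + 1) m).1 h4
    omega
  have hbu : ∀ s m, q s ≤ m → m < q (s + 1) → blk m = s := by
    intro s m h1 h2
    have h3 := (hblk s m).2 h1
    by_contra hne
    have h4 : s + 1 ≤ blk m := by omega
    have h5 := (hblk (s + 1) m).1 h4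
    omega
  -- the widths
  have hw : ∀ s, q (J s) < q (J s + 1) := fun s => hq (Nat.lt_succ_self _)
  -- the position of the block of `m` in its stage
  have hpos : ∀ m, q (J (σ m) + 1) ≤ m → J (σ m) + 1 ≤ blk m ∧ blk m < J (σ m + 1) := by
    intro m hm
    refine ⟨(hblk _ _).2 hm, ?_⟩
    by_contra hcon
    push Not at hcon
    have := (hblk _ _).1 hcon
    have := ha2 m
    omega
  obtain ⟨par, hpar1, hpar2⟩ : ∃ par : ℕ → ℕ, (∀ m, m < q (J (σ m) + 1) → par m = m) ∧
      (∀ m, q (J (σ m) + 1) ≤ m → par m = q (J (σ m)) + (blk m - (J (σ m) + 1))) :=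
    ⟨fun m => if m < q (J (σ m) + 1) then m else q (J (σ m)) + (blk m - (J (σ m) + 1)),
      fun m hm => if_pos hm, fun m hm => if_neg (by omega)⟩
  -- stage membership of the parent
  have hparr : ∀ m, q (J (σ m)) ≤ par m ∧ par m < q (J (σ m) + 1) := by
    intro m
    by_cases hm : m < q (J (σ m) + 1)
    · rw [hpar1 m hm]; exact ⟨ha1 m, hm⟩
    · push Not at hm
      rw [hpar2 m hm]
      obtain ⟨h1, h2⟩ := hpos m hm
      rw [hJs] at h2
      have := hw (σ m)
      omega
  have hb_le : ∀ s, q (J s + 1) ≤ q (J (s + 1)) := fun s => hqm (by rw [hJs]; omega)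
  have hσpar : ∀ m, σ (par m) = σ m := by
    intro m
    obtain ⟨h1, h2⟩ := hparr m
    exact hσu _ _ h1 (lt_of_lt_of_le h2 (hb_le _))
  have hparle : ∀ m, par m ≤ m := by
    intro m
    by_cases hm : m < q (J (σ m) + 1)
    · rw [hpar1 m hm]
    · push Not at hm
      exact (hparr m).2.le.trans hm
  obtain ⟨lo, hlo⟩ : ∃ lo : ℕ → ℕ, ∀ n, lo n = q (J (σ n) + 1 + (n - q (J (σ n)))) :=
    ⟨_, fun n => rfl⟩
  obtain ⟨hi, hhi⟩ : ∃ hi : ℕ → ℕ, ∀ n, hi n = q (J (σ n) + 1 + (n - q (J (σ n))) + 1) :=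
    ⟨_, fun n => rfl⟩
  have hparent : ∀ s n, q (J s) ≤ n → n < q (J s + 1) → σ n = s ∧ par n = n := by
    intro s n h1 h2
    have h3 : σ n = s := hσu s n h1 (lt_of_lt_of_le h2 (hb_le s))
    refine ⟨h3, hpar1 n ?_⟩
    rw [h3]; exact h2
  refine ⟨⟨par, lo, hi, fun s => q (J s), fun s => q (J s + 1), ?_, ?_, ?_, ?_, ?_, ?_, ?_, ?_⟩⟩
  · -- par_par
    intro m
    refine hpar1 _ ?_
    rw [hσpar]
    exact (hparr m).2
  · -- child
    intro n hn m
    have hn1 := hparr n
    rw [hn] at hn1
    constructor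
    · rintro ⟨h1, h2⟩
      have h3 : σ m = σ n := by rw [← h1, hσpar]
      have h4 : q (J (σ m) + 1) ≤ m := by
        by_contra hcon
        push Not at hcon
        exact h2 (by rw [← h1, hpar1 m hcon])
      have h5 := hpar2 m h4
      have h6 := hpos m h4
      rw [h1] at h5
      rw [h3] at h5 h6
      have h7 : J (σ n) + 1 + (n - q (J (σ n))) = blk m := by omega
      rw [hlo, hhi, h7]
      exact ⟨hq1 m, hq2 m⟩
    · rintro ⟨h1, h2⟩
      rw [hlo] at h1
      rw [hhi] at h2
      have h3 := hbu _ _ h1 h2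
      have h4 : q (J (σ n) + 1) ≤ m := (hqm (by omega)).trans h1
      have h5 : m < q (J (σ n + 1)) := by
        refine lt_of_lt_of_le h2 (hqm ?_)
        rw [hJs]
        have := hw (σ n)
        omega
      have h6 : σ m = σ n := hσu _ _ ((hw _).le.trans h4) h5
      have h7 := hpar2 m (by rw [h6]; exact h4)
      rw [h6, h3] at h7
      omega
  · -- init
    intro s m
    constructor
    · intro h; exact lt_of_le_of_lt (hparle m) h
    · intro h
      by_contra hcon
      push Not at hcon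
      have h1 := (hσ s m).2 hcon
      have h2 := (hparr m).1
      have h3 : q (J s) ≤ q (J (σ m)) := ha.monotone h1
      omega
  · intro s n h1 h2
    exact (hparent s n h1 h2).2
  · intro s
    show RA (q (J s)) (q (J s + 1))
    rw [hqs]; exact hn2 _
  · intro s n _ _
    rw [hlo, hhi, hqs]
    exact hn3 _
  · -- low
    intro s n h1 h2 m
    obtain ⟨h3, h4⟩ := hparent s n h1 h2
    have h5 : lo n = q (J s + 1 + (n - q (J s))) := by rw [hlo, h3]
    rw [h5]
    constructor
    · intro h
      by_cases hm : m < q (J s + 1)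
      · by_cases hnm : n ≤ m
        · exact Or.inr ⟨hnm, hm⟩
        · left
          exact lt_of_le_of_lt (hparle m) (by omega)
      · push Not at hm
        left
        have h6 : m < q (J (s + 1)) := by
          refine lt_of_lt_of_le h (hqm ?_)
          rw [hJs]; omega
        have h7 : σ m = s := hσu s m ((hw s).le.trans hm) h6
        have h8 := hpar2 m (by rw [h7]; exact hm)
        rw [h7] at h8
        have h9 : J s + 1 ≤ blk m := (hblk _ _).2 hm
        have h10 : blk m < J s + 1 + (n - q (J s)) := by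
          by_contra hcon
          push Not at hcon
          have := (hblk _ _).1 hcon
          omega
        omega
    · rintro (h | ⟨h6, h7⟩)
      · by_contra hcon
        push Not at hcon
        have hm : q (J s + 1) ≤ m := (hqm (by omega)).trans hcon
        have h8 := hparr m
        have h9 : s ≤ σ m := (hσ _ _).2 ((hw s).le.trans hm)
        have h10 : σ m = s := by
          by_contra hne
          have h11 : s + 1 ≤ σ m := by omega
          have h12 : q (J (s + 1)) ≤ q (J (σ m)) := ha.monotone h11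
          have := hb_le s
          omega
        have h11 := hpar2 m (by rw [h10]; exact hm)
        rw [h10] at h11
        have h12 : J s + 1 + (n - q (J s)) ≤ blk m := (hblk _ _).2 hcon
        omega
      · exact lt_of_lt_of_le h7 (hqm (by omega))
  · intro s
    exact ha.id_le s

end Pool.Agent.N312.SBio
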