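import Mathlib
import Pool.Agent.N312.SBioA
import Pool.Agent.N312.SBioB

set_option autoImplicit false

/-!
# Flattened perturbations of shrinking biorthogonal systems
-/

namespace Pool.Agent.N312.SBio

open Topology Filter Set

universe u v

variable {𝕜 : Type u} [RCLike 𝕜] {E : Type v} [NormedAddCommGroup E] [NormedSpace 𝕜 E]

theorem sd_zero_smul (φ : StrongDual 𝕜 E) : (0 : 𝕜) • φ = 0 := zero_smul 𝕜 φ
theorem sd_add_smul (a b : 𝕜) (φ : StrongDual 𝕜 E) : (a + b) • φ = a • φ + b • φ :=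
  add_smul a b φ
theorem sd_sub_smul (a b : 𝕜) (φ : StrongDual 𝕜 E) : (a - b) • φ = a • φ - b • φ :=
  sub_smul a b φ
theorem sd_smul_add (a : 𝕜) (φ ψ : StrongDual 𝕜 E) : a • (φ + ψ) = a • φ + a • ψ :=
  smul_add a φ ψ
theorem sd_smul_sub (a : 𝕜) (φ ψ : StrongDual 𝕜 E) : a • (φ - ψ) = a • φ - a • ψ :=
  smul_sub a φ ψ

/-- partial sums -/
noncomputable def ps (x : ℕ → E) (f : ℕ → StrongDual 𝕜 E) (q : ℕ) (g : StrongDual 𝕜 E) :
    StrongDual 𝕜 E := ∑ n ∈ Finset.range q, g (x n) • f n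

def RA (x : ℕ → E) (f : ℕ → StrongDual 𝕜 E) (q q' : ℕ) : Prop :=
  ∀ g : StrongDual 𝕜 E, ∃ u ∈ Submodule.span 𝕜 (f '' Ico q q'), ‖ps x f q g + u‖ ≤ 2 * ‖g‖

def RB (x : ℕ → E) (f : ℕ → StrongDual 𝕜 E) (p p' : ℕ) : Prop :=
  ∀ u ∈ Submodule.span 𝕜 (f '' Iio p), ∀ v : StrongDual 𝕜 E, (∀ n < p', v (x n) = 0) →
    ‖u‖ ≤ 2 * ‖u + v‖

variable {x : ℕ → E} {f : ℕ → StrongDual 𝕜 E}

theorem sum_apply' (s : Finset ℕ) (c : ℕ → 𝕜) (f : ℕ → StrongDual 𝕜 E) (v : E) :
    (∑ n ∈ s, c n • f n) v = ∑ n ∈ s, c n * f n v := by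
  rw [FunLike.coe_sum, Finset.sum_apply]
  rfl

theorem sum_apply_x (hbi : ∀ i j, f i (x j) = if i = j then 1 else 0) (s : Finset ℕ) (c : ℕ → 𝕜)
    (j : ℕ) : (∑ n ∈ s, c n • f n) (x j) = if j ∈ s then c j else 0 := by
  rw [sum_apply']
  split_ifs with h
  · rw [Finset.sum_eq_single j]
    · rw [hbi, if_pos rfl, mul_one]
    · intro i _ hij; rw [hbi, if_neg hij, mul_zero]
    · intro hj; exact (hj h).elim
  · refine Finset.sum_eq_zero fun i hi => ?_
    rw [hbi, if_neg, mul_zero]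
    rintro rfl
    exact h hi

theorem ps_add (q : ℕ) (g h : StrongDual 𝕜 E) : ps x f q (g + h) = ps x f q g + ps x f q h := by
  simp only [ps, _root_.add_apply, sd_add_smul, Finset.sum_add_distrib]

theorem ps_zero (q : ℕ) : ps x f q 0 = 0 := by
  rw [ps]
  exact Finset.sum_eq_zero fun i _ => sd_zero_smul _

theorem ps_smul (q : ℕ) (c : 𝕜) (g : StrongDual 𝕜 E) : ps x f q (c • g) = c • ps x f q g := by
  simp only [ps, _root_.smul_apply, smul_eq_mul, mul_smul, Finset.smul_sum]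

theorem ps_sub (q : ℕ) (g h : StrongDual 𝕜 E) : ps x f q (g - h) = ps x f q g - ps x f q h := by
  simp only [ps, _root_.sub_apply, sd_sub_smul, Finset.sum_sub_distrib]

theorem norm_ps_le (q : ℕ) (g : StrongDual 𝕜 E) :
    ‖ps x f q g‖ ≤ ‖g‖ * ∑ n ∈ Finset.range q, ‖x n‖ * ‖f n‖ := by
  refine (norm_sum_le _ _).trans ?_
  rw [Finset.mul_sum]
  refine Finset.sum_le_sum fun n _ => ?_
  rw [norm_smul, ← mul_assoc]
  gcongr
  exact g.le_opNorm _

theorem ps_eq_self (hbi : ∀ i j, f i (x j) = if i = j then 1 else 0) {q N : ℕ} (hN : N ≤ q)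
    {h : StrongDual 𝕜 E} (hh : h ∈ Submodule.span 𝕜 (f '' Iio N)) : ps x f q h = h := by
  induction hh using Submodule.span_induction with
  | mem y hy =>
    obtain ⟨j, hj, rfl⟩ := hy
    have hjq : j < q := lt_of_lt_of_le hj hN
    rw [ps, Finset.sum_eq_single j]
    · rw [hbi, if_pos rfl, one_smul]
    · intro i _ hij; rw [hbi, if_neg (Ne.symm hij), sd_zero_smul]
    · intro hj; exact (hj (Finset.mem_range.2 hjq)).elim
  | zero => exact ps_zero q
  | add a b _ _ ha hb => rw [ps_add, ha, hb]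
  | smul c a _ ha => rw [ps_smul, ha]

theorem sub_ps_mem (hbi : ∀ i j, f i (x j) = if i = j then 1 else 0) {q N : ℕ}
    {h : StrongDual 𝕜 E} (hh : h ∈ Submodule.span 𝕜 (f '' Iio N)) :
    h - ps x f q h ∈ Submodule.span 𝕜 (f '' Ico q N) := by
  induction hh using Submodule.span_induction with
  | mem y hy =>
    obtain ⟨j, hj, rfl⟩ := hy
    by_cases hjq : j < q
    · rw [ps, Finset.sum_eq_single j]
      · rw [hbi, if_pos rfl, one_smul, sub_self]; exact Submodule.zero_mem _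
      · intro i _ hij; rw [hbi, if_neg (Ne.symm hij), sd_zero_smul]
      · intro hj; exact (hj (Finset.mem_range.2 hjq)).elim
    · have : ps x f q (f j) = 0 := by
        rw [ps]
        refine Finset.sum_eq_zero fun i hi => ?_
        rw [hbi, if_neg, sd_zero_smul]
        rintro rfl
        exact hjq (Finset.mem_range.1 hi)
      rw [this, sub_zero]
      exact Submodule.subset_span ⟨j, ⟨not_lt.1 hjq, hj⟩, rfl⟩
  | zero => rw [ps_zero, sub_zero]; exact Submodule.zero_mem _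
  | add a b _ _ ha hb =>
    rw [ps_add, add_sub_add_comm]
    exact Submodule.add_mem _ ha hb
  | smul c a _ ha =>
    rw [ps_smul, ← sd_smul_sub]
    exact Submodule.smul_mem _ _ ha

theorem exists_Iio {V : Type*} [AddCommGroup V] [Module 𝕜 V] {y : ℕ → V} {h : V}
    (hh : h ∈ Submodule.span 𝕜 (range y)) :
    ∃ N, h ∈ Submodule.span 𝕜 (y '' Iio N) := by
  induction hh using Submodule.span_induction with
  | mem z hz =>
    obtain ⟨j, rfl⟩ := hz
    exact ⟨j + 1, Submodule.subset_span ⟨j, Nat.lt_succ_self j, rfl⟩⟩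
  | zero => exact ⟨0, Submodule.zero_mem _⟩
  | add a b _ _ ha hb =>
    obtain ⟨N, hN⟩ := ha
    obtain ⟨M, hM⟩ := hb
    refine ⟨max N M, Submodule.add_mem _ (Submodule.span_mono (image_mono ?_) hN)
      (Submodule.span_mono (image_mono ?_) hM)⟩
    · exact Iio_subset_Iio (le_max_left _ _)
    · exact Iio_subset_Iio (le_max_right _ _)
  | smul c a _ ha =>
    obtain ⟨N, hN⟩ := ha
    exact ⟨N, Submodule.smul_mem _ _ hN⟩

theorem eq_sum_Ico (hbi : ∀ i j, f i (x j) = if i = j then 1 else 0) {q q' : ℕ}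
    {u : StrongDual 𝕜 E} (hu : u ∈ Submodule.span 𝕜 (f '' Ico q q')) :
    u = ∑ n ∈ Finset.Ico q q', u (x n) • f n := by
  induction hu using Submodule.span_induction with
  | mem y hy =>
    obtain ⟨j, hj, rfl⟩ := hy
    rw [Finset.sum_eq_single j]
    · rw [hbi, if_pos rfl, one_smul]
    · intro i _ hij; rw [hbi, if_neg (Ne.symm hij), sd_zero_smul]
    · intro hj'; exact (hj' (Finset.mem_Ico.2 hj)).elim
  | zero => exact (Finset.sum_eq_zero fun i _ => sd_zero_smul _).symm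
  | add a b _ _ ha hb =>
    conv_lhs => rw [ha, hb]
    rw [← Finset.sum_add_distrib]
    exact Finset.sum_congr rfl fun i _ => by rw [_root_.add_apply, sd_add_smul]
  | smul c a _ ha =>
    conv_lhs => rw [ha]
    rw [Finset.smul_sum]
    exact Finset.sum_congr rfl fun i _ => by rw [_root_.smul_apply, smul_assoc]

/-- (A) -/
theorem exists_RA (hbi : ∀ i j, f i (x j) = if i = j then 1 else 0)
    (hf : Dense (Submodule.span 𝕜 (range f) : Set (StrongDual 𝕜 E))) (q : ℕ) :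
    ∃ q', ∀ q'', q' ≤ q'' → RA x f q q'' := by
  classical
  let L : (Fin q → 𝕜) → StrongDual 𝕜 E := fun c => ∑ i : Fin q, c i • f i
  have hL : Continuous L := by
    refine continuous_finsetSum _ fun i _ => ?_
    exact (continuous_apply i).smul continuous_const
  let T : StrongDual 𝕜 E → (Fin q → 𝕜) := fun g i => g (x i)
  have hLT : ∀ g, L (T g) = ps x f q g := by
    intro g
    simp only [L, T, ps]
    rw [Finset.sum_range (fun n => g (x n) • f n)]
  set K : Set (Fin q → 𝕜) := closure (T '' Metric.closedBall 0 1) with hK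
  have hKc : IsCompact K := by
    refine Bornology.IsBounded.isCompact_closure ?_
    refine (Metric.isBounded_closedBall (x := (0 : Fin q → 𝕜))
      (r := ∑ n ∈ Finset.range q, ‖x n‖)).subset ?_
    rintro _ ⟨g, hg, rfl⟩
    rw [mem_closedBall_zero_iff] at hg ⊢
    rw [pi_norm_le_iff_of_nonneg (by positivity)]
    intro i
    calc ‖g (x i)‖ ≤ ‖g‖ * ‖x i‖ := g.le_opNorm _
      _ ≤ 1 * ‖x i‖ := by gcongr
      _ = ‖x i‖ := one_mul _
      _ ≤ ∑ n ∈ Finset.range q, ‖x n‖ :=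
        Finset.single_le_sum (f := fun n => ‖x n‖) (fun n _ => norm_nonneg _)
          (Finset.mem_range.2 i.2)
  let U : ℕ → Set (Fin q → 𝕜) := fun k =>
    {c | ∃ u ∈ Submodule.span 𝕜 (f '' Ico q k), ‖L c + u‖ < 2}
  have hUo : ∀ k, IsOpen (U k) := by
    intro k
    have : U k = ⋃ u ∈ Submodule.span 𝕜 (f '' Ico q k), {c | ‖L c + u‖ < 2} := by
      ext c; simp [U]
    rw [this]
    refine isOpen_biUnion fun u _ => ?_
    exact isOpen_lt (by fun_prop) continuous_const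
  have hUmono : Monotone U := by
    intro k l hkl c hc
    obtain ⟨u, hu, huc⟩ := hc
    exact ⟨u, Submodule.span_mono (image_mono (Ico_subset_Ico_right hkl)) hu, huc⟩
  set C : ℝ := ∑ n ∈ Finset.range q, ‖x n‖ * ‖f n‖ with hC
  have hC0 : 0 ≤ C := Finset.sum_nonneg fun n _ => by positivity
  have hcov : K ⊆ ⋃ k, U k := by
    intro c hc
    -- approximate by a point of the image
    obtain ⟨d, hd, hdc⟩ : ∃ d ∈ T '' Metric.closedBall 0 1, ‖L c - L d‖ < 1 / 4 := by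
      have hopen : IsOpen {d | ‖L c - L d‖ < 1 / 4} :=
        isOpen_lt (by fun_prop) continuous_const
      obtain ⟨d, hd1, hd2⟩ := mem_closure_iff.1 hc _ hopen (by simp)
      exact ⟨d, hd2, hd1⟩
    obtain ⟨g, hg, rfl⟩ := hd
    rw [mem_closedBall_zero_iff] at hg
    rw [hLT] at hdc
    obtain ⟨h, hh, hgh⟩ := hf.exists_dist_lt g (show 0 < 1 / (4 * (1 + C)) by positivity)
    rw [dist_eq_norm] at hgh
    obtain ⟨N, hN⟩ := exists_Iio hh
    refine mem_iUnion.2 ⟨N, h - ps x f q h, sub_ps_mem hbi hN, ?_⟩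
    have e : L c + (h - ps x f q h) = (L c - ps x f q g) + g - (g - h) + ps x f q (g - h) := by
      rw [ps_sub]; abel
    rw [e]
    have h1 : ‖ps x f q (g - h)‖ ≤ ‖g - h‖ * C := norm_ps_le q _
    have h2 : ‖g - h‖ * (1 + C) < 1 / 4 := by
      calc ‖g - h‖ * (1 + C) < 1 / (4 * (1 + C)) * (1 + C) := by gcongr
        _ = 1 / 4 := by field_simp
    have h3 := norm_add_le ((L c - ps x f q g) + g - (g - h)) (ps x f q (g - h))
    have h4 := norm_sub_le ((L c - ps x f q g) + g) (g - h)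
    have h5 := norm_add_le (L c - ps x f q g) g
    nlinarith
  obtain ⟨k, hk⟩ := hKc.elim_directed_cover U hUo hcov
    (directed_of_isDirected_le fun _ _ h => hUmono h)
  refine ⟨k, fun q'' hq'' g => ?_⟩
  by_cases hg : g = 0
  · refine ⟨0, Submodule.zero_mem _, ?_⟩
    rw [hg, ps_zero, add_zero, norm_zero, mul_zero]
  have hgpos : 0 < ‖g‖ := norm_pos_iff.2 hg
  have hgne : ((‖g‖ : ℝ) : 𝕜) ≠ 0 := by exact_mod_cast hgpos.ne'
  set g1 : StrongDual 𝕜 E := ((‖g‖ : ℝ) : 𝕜)⁻¹ • g with hg1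
  have hg1n : ‖g1‖ ≤ 1 := by
    rw [hg1, norm_smul, norm_inv, RCLike.norm_ofReal, abs_of_pos hgpos, inv_mul_cancel₀ hgpos.ne']
  have hmem : T g1 ∈ K := subset_closure ⟨g1, mem_closedBall_zero_iff.2 hg1n, rfl⟩
  obtain ⟨u, hu, hu2⟩ := hk hmem
  rw [hLT] at hu2
  refine ⟨((‖g‖ : ℝ) : 𝕜) • u, Submodule.smul_mem _ _
    (Submodule.span_mono (image_mono (Ico_subset_Ico_right hq'')) hu), ?_⟩
  have e : ps x f q g = ((‖g‖ : ℝ) : 𝕜) • ps x f q g1 := by
    rw [← ps_smul, hg1, smul_smul, mul_inv_cancel₀ hgne, one_smul]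
  rw [e, ← sd_smul_add, norm_smul, RCLike.norm_ofReal, abs_of_pos hgpos]
  nlinarith

/-- (B) -/
theorem exists_RB (hx : Dense (Submodule.span 𝕜 (range x) : Set E)) (q : ℕ) :
    ∃ q', ∀ q'', q' ≤ q'' → RB x f q q'' := by
  classical
  set F : Submodule 𝕜 (StrongDual 𝕜 E) := Submodule.span 𝕜 (f '' Iio q) with hF
  have hfd : FiniteDimensional 𝕜 F :=
    FiniteDimensional.span_of_finite 𝕜 ((Set.finite_Iio q).image f)
  have hps : ProperSpace F := FiniteDimensional.proper 𝕜 F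
  set K : Set (StrongDual 𝕜 E) := Subtype.val '' (Metric.sphere (0 : F) 1) with hK
  have hKc : IsCompact K := (isCompact_sphere _ _).image continuous_subtype_val
  let U : ℕ → Set (StrongDual 𝕜 E) := fun k =>
    {u | ∃ z ∈ Submodule.span 𝕜 (x '' Iio k), ‖z‖ ≤ 1 ∧ 1 / 2 < ‖u z‖}
  have hUo : ∀ k, IsOpen (U k) := by
    intro k
    have : U k = ⋃ z ∈ {z | z ∈ Submodule.span 𝕜 (x '' Iio k) ∧ ‖z‖ ≤ 1},
        {u : StrongDual 𝕜 E | 1 / 2 < ‖u z‖} := by
      ext c; simp [U, and_assoc]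
    rw [this]
    refine isOpen_biUnion fun z _ => ?_
    exact isOpen_lt continuous_const (by fun_prop)
  have hUmono : Monotone U := by
    intro k l hkl c hc
    obtain ⟨z, hz, hz'⟩ := hc
    exact ⟨z, Submodule.span_mono (image_mono (Iio_subset_Iio hkl)) hz, hz'⟩
  have hcov : K ⊆ ⋃ k, U k := by
    rintro _ ⟨u, hu, rfl⟩
    have hu1 : ‖(u : StrongDual 𝕜 E)‖ = 1 := by
      have h : dist (u : StrongDual 𝕜 E) 0 = 1 := Metric.mem_sphere.1 hu
      rwa [dist_zero_right] at h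
    obtain ⟨z0, hz0, hz0'⟩ := ContinuousLinearMap.exists_lt_apply_of_lt_opNorm
      (u : StrongDual 𝕜 E) (show (1 / 2 : ℝ) < ‖(u : StrongDual 𝕜 E)‖ by rw [hu1]; norm_num)
    have hopen : IsOpen {z : E | ‖z‖ < 1 ∧ 1 / 2 < ‖(u : StrongDual 𝕜 E) z‖} :=
      (isOpen_lt continuous_norm continuous_const).inter
        (isOpen_lt continuous_const (u : StrongDual 𝕜 E).continuous.norm)
    obtain ⟨z, hz1, hz2⟩ := hx.inter_open_nonempty _ hopen ⟨z0, hz0, hz0'⟩
    obtain ⟨N, hN⟩ := exists_Iio hz2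
    exact mem_iUnion.2 ⟨N, z, hN, hz1.1.le, hz1.2⟩
  obtain ⟨k, hk⟩ := hKc.elim_directed_cover U hUo hcov
    (directed_of_isDirected_le fun _ _ h => hUmono h)
  refine ⟨k, fun q'' hq'' u hu v hv => ?_⟩
  by_cases hu0 : u = 0
  · rw [hu0, norm_zero]; positivity
  have hupos : 0 < ‖u‖ := norm_pos_iff.2 hu0
  have hune : ((‖u‖ : ℝ) : 𝕜) ≠ 0 := by exact_mod_cast hupos.ne'
  set u1 : StrongDual 𝕜 E := ((‖u‖ : ℝ) : 𝕜)⁻¹ • u with hu1
  have hu1F : u1 ∈ F := Submodule.smul_mem _ _ hu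
  have hu1n : ‖u1‖ = 1 := by
    rw [hu1, norm_smul, norm_inv, RCLike.norm_ofReal, abs_of_pos hupos, inv_mul_cancel₀ hupos.ne']
  have hmem : u1 ∈ K := by
    refine ⟨⟨u1, hu1F⟩, ?_, rfl⟩
    refine Metric.mem_sphere.2 ?_
    change dist u1 0 = 1
    rw [dist_zero_right]
    exact hu1n
  obtain ⟨z, hz, hz1, hz2⟩ := hk hmem
  have hvz : v z = 0 := by
    clear hz1 hz2
    induction hz using Submodule.span_induction with
    | mem y hy =>
      obtain ⟨j, hj, rfl⟩ := hy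
      exact hv j (lt_of_lt_of_le hj hq'')
    | zero => exact map_zero v
    | add a b _ _ ha hb => rw [map_add, ha, hb, add_zero]
    | smul c a _ ha => rw [map_smul, ha, smul_zero]
  have h1 : ‖u z‖ ≤ ‖u + v‖ := by
    have e : u z = (u + v) z := by rw [_root_.add_apply, hvz, add_zero]
    rw [e]
    calc ‖(u + v) z‖ ≤ ‖u + v‖ * ‖z‖ := (u + v).le_opNorm _
      _ ≤ ‖u + v‖ * 1 := by gcongr
      _ = _ := mul_one _
  have h2 : ‖u1 z‖ = ‖u‖⁻¹ * ‖u z‖ := by
    rw [hu1, _root_.smul_apply, norm_smul, norm_inv, RCLike.norm_ofReal, abs_of_pos hupos]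
  rw [h2] at hz2
  have h3 : ‖u‖ * (1 / 2) < ‖u z‖ := by
    calc ‖u‖ * (1 / 2) < ‖u‖ * (‖u‖⁻¹ * ‖u z‖) := by gcongr
      _ = ‖u z‖ := by rw [← mul_assoc, mul_inv_cancel₀ hupos.ne', one_mul]
  linarith

end Pool.Agent.N312.SBio
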