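import Mathlib
import Pool.Agent.N312.SBioC

set_option autoImplicit false

/-!
# Flattened perturbations of shrinking biorthogonal systems are strong in the dual
-/

namespace Pool.Agent.N312.SBio

open Topology Filter Set

universe u v

variable {𝕜 : Type u} [RCLike 𝕜] {E : Type v} [NormedAddCommGroup E] [NormedSpace 𝕜 E]
variable {x : ℕ → E} {f : ℕ → StrongDual 𝕜 E}

/-- the tolerances -/
noncomputable def eps (x : ℕ → E) (n : ℕ) : ℝ := (1 / 4) ^ n / (1 + ‖x n‖)

theorem eps_pos (x : ℕ → E) (n : ℕ) : 0 < eps x n := by unfold eps; positivity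

theorem mul_eps_le (x : ℕ → E) (n : ℕ) : ‖x n‖ * eps x n ≤ (1 / 4) ^ n := by
  unfold eps
  rw [mul_div_assoc', div_le_iff₀ (by positivity)]
  have : (0 : ℝ) ≤ (1 / 4) ^ n := by positivity
  nlinarith [norm_nonneg (x n)]

/-- the small coefficients -/
noncomputable def tau (x : ℕ → E) (f : ℕ → StrongDual 𝕜 E) (par : ℕ → ℕ) (m : ℕ) : 𝕜 :=
  ((eps x (par m) / (1 + ‖f m‖) : ℝ) : 𝕜)

theorem tau_ne (x : ℕ → E) (f : ℕ → StrongDual 𝕜 E) (par : ℕ → ℕ) (m : ℕ) : tau x f par m ≠ 0 := by
  unfold tau
  have : eps x (par m) / (1 + ‖f m‖) ≠ 0 := by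
    have := eps_pos x (par m)
    positivity
  exact_mod_cast this

theorem norm_tau_smul_le (x : ℕ → E) (f : ℕ → StrongDual 𝕜 E) (par : ℕ → ℕ) (m : ℕ) :
    ‖tau x f par m • f m‖ ≤ eps x (par m) := by
  have h := eps_pos x (par m)
  rw [norm_smul, tau, RCLike.norm_ofReal, abs_of_pos (by positivity), div_mul_eq_mul_div,
    div_le_iff₀ (by positivity)]
  nlinarith [norm_nonneg (f m)]

variable {A B : ℕ → ℕ → Prop}

/-- the perturbed functionals -/
noncomputable def f' (x : ℕ → E) (f : ℕ → StrongDual 𝕜 E) (c : Comb A B) (m : ℕ) :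
    StrongDual 𝕜 E :=
  if c.par m = m then f m else f (c.par m) + tau x f c.par m • f m

/-- the perturbed vectors -/
noncomputable def x' (x : ℕ → E) (f : ℕ → StrongDual 𝕜 E) (c : Comb A B) (m : ℕ) : E :=
  if c.par m = m then x m - ∑ i ∈ Finset.Ico (c.lo m) (c.hi m), (tau x f c.par i)⁻¹ • x i
  else (tau x f c.par m)⁻¹ • x m

theorem f'_par (c : Comb A B) {m : ℕ} (h : c.par m = m) : f' x f c m = f m := if_pos h
theorem f'_child (c : Comb A B) {m : ℕ} (h : c.par m ≠ m) :
    f' x f c m = f (c.par m) + tau x f c.par m • f m := if_neg h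
theorem x'_par (c : Comb A B) {m : ℕ} (h : c.par m = m) :
    x' x f c m = x m - ∑ i ∈ Finset.Ico (c.lo m) (c.hi m), (tau x f c.par i)⁻¹ • x i := if_pos h
theorem x'_child (c : Comb A B) {m : ℕ} (h : c.par m ≠ m) :
    x' x f c m = (tau x f c.par m)⁻¹ • x m := if_neg h

theorem mem_Ico_iff (c : Comb A B) {n : ℕ} (hn : c.par n = n) (m : ℕ) :
    m ∈ Finset.Ico (c.lo n) (c.hi n) ↔ c.par m = n ∧ m ≠ n := by
  rw [Finset.mem_Ico, c.child n hn m]

theorem biorth' (hbi : ∀ i j, f i (x j) = if i = j then 1 else 0) (c : Comb A B) (i j : ℕ) :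
    f' x f c i (x' x f c j) = if i = j then 1 else 0 := by
  classical
  by_cases hi : c.par i = i
  · rw [f'_par c hi]
    by_cases hj : c.par j = j
    · rw [x'_par c hj, map_sub, map_sum, Finset.sum_eq_zero, sub_zero, hbi]
      intro m hm
      obtain ⟨h1, h2⟩ := (mem_Ico_iff c hj m).1 hm
      rw [map_smul, hbi, if_neg, smul_zero]
      rintro rfl
      exact h2 (hi.symm.trans h1)
    · rw [x'_child c hj, map_smul, hbi]
      have : i ≠ j := by rintro rfl; exact hj hi
      rw [if_neg this, smul_zero]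
  · rw [f'_child c hi, _root_.add_apply, _root_.smul_apply]
    by_cases hj : c.par j = j
    · have hij : i ≠ j := by rintro rfl; exact hi hj
      have e1 : f i (x' x f c j) =
          - if c.par i = j then (tau x f c.par i)⁻¹ else 0 := by
        rw [x'_par c hj, map_sub, map_sum, hbi, if_neg hij, zero_sub]
        congr 1
        have : ∑ m ∈ Finset.Ico (c.lo j) (c.hi j), f i ((tau x f c.par m)⁻¹ • x m) =
            ∑ m ∈ Finset.Ico (c.lo j) (c.hi j), if i = m then (tau x f c.par i)⁻¹ else 0 := by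
          refine Finset.sum_congr rfl fun m _ => ?_
          rw [map_smul, hbi]
          by_cases him : i = m
          · rw [if_pos him, if_pos him, him, smul_eq_mul, mul_one]
          · rw [if_neg him, if_neg him, smul_zero]
        rw [this, Finset.sum_ite_eq]
        have : i ∈ Finset.Ico (c.lo j) (c.hi j) ↔ c.par i = j := by
          rw [mem_Ico_iff c hj]
          exact ⟨fun h => h.1, fun h => ⟨h, hij⟩⟩
        simp only [this]
      have e2 : f (c.par i) (x' x f c j) = if c.par i = j then 1 else 0 := by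
        rw [x'_par c hj, map_sub, map_sum, Finset.sum_eq_zero, sub_zero, hbi]
        intro m hm
        obtain ⟨h1, h2⟩ := (mem_Ico_iff c hj m).1 hm
        rw [map_smul, hbi, if_neg, smul_zero]
        rintro rfl
        rw [c.par_par] at h1
        exact h2 h1
      rw [e1, e2, if_neg hij]
      split_ifs with h
      · rw [smul_eq_mul, mul_neg, mul_inv_cancel₀ (tau_ne x f c.par i), add_neg_cancel]
      · rw [neg_zero, smul_zero, add_zero]
    · rw [x'_child c hj, map_smul, map_smul, hbi, hbi]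
      have h1 : c.par i ≠ j := by
        rintro rfl
        exact hj (c.par_par i)
      rw [if_neg h1, smul_zero, zero_add]
      by_cases hij : i = j
      · subst hij
        rw [if_pos rfl, smul_eq_mul, smul_eq_mul, mul_one, mul_inv_cancel₀ (tau_ne x f c.par i)]
      · rw [if_neg hij, smul_zero, smul_zero]

theorem x_mem (c : Comb A B) (m : ℕ) : x m ∈ Submodule.span 𝕜 (range (x' x f c)) := by
  have hch : ∀ i, c.par i ≠ i → x i ∈ Submodule.span 𝕜 (range (x' x f c)) := by
    intro i hi
    have : x i = tau x f c.par i • x' x f c i := by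
      rw [x'_child c hi, smul_smul, mul_inv_cancel₀ (tau_ne x f c.par i), one_smul]
    rw [this]
    exact Submodule.smul_mem _ _ (Submodule.subset_span ⟨i, rfl⟩)
  by_cases hm : c.par m = m
  · have e : x m = x' x f c m +
        ∑ i ∈ Finset.Ico (c.lo m) (c.hi m), (tau x f c.par i)⁻¹ • x i := by
      rw [x'_par c hm, sub_add_cancel]
    rw [e]
    refine Submodule.add_mem _ (Submodule.subset_span ⟨m, rfl⟩) (Submodule.sum_mem _ fun i hi => ?_)
    refine Submodule.smul_mem _ _ (hch i ?_)
    obtain ⟨h1, h2⟩ := (mem_Ico_iff c hm i).1 hi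
    rw [h1]; exact Ne.symm h2
  · exact hch m hm

theorem f_mem (c : Comb A B) (m : ℕ) : f m ∈ Submodule.span 𝕜 (range (f' x f c)) := by
  have hp : ∀ i, c.par i = i → f i ∈ Submodule.span 𝕜 (range (f' x f c)) := by
    intro i hi
    rw [← f'_par (x := x) (f := f) c hi]
    exact Submodule.subset_span ⟨i, rfl⟩
  by_cases hm : c.par m = m
  · exact hp m hm
  · have e : f m = (tau x f c.par m)⁻¹ • (f' x f c m - f (c.par m)) := by
      rw [f'_child c hm, add_sub_cancel_left, smul_smul, inv_mul_cancel₀ (tau_ne x f c.par m),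
        one_smul]
    rw [e]
    exact Submodule.smul_mem _ _ (Submodule.sub_mem _ (Submodule.subset_span ⟨m, rfl⟩)
      (hp _ (c.par_par m)))

theorem norm_f_sub (c : Comb A B) {n i : ℕ} (h : c.par i = n) : ‖f n - f' x f c i‖ ≤ eps x n := by
  by_cases hi : c.par i = i
  · have : n = i := h.symm.trans hi
    subst this
    rw [f'_par c hi, sub_self, norm_zero]
    exact (eps_pos x _).le
  · rw [f'_child c hi, h, sub_add_cancel_left, norm_neg, ← h]
    exact norm_tau_smul_le x f c.par i

/-- the perturbed vectors are combinations of the vectors of the group -/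
theorem apply_x'_eq (c : Comb A B) (g h : StrongDual 𝕜 E) (i : ℕ)
    (hgh : ∀ j, c.par j = c.par i → g (x j) = h (x j)) : g (x' x f c i) = h (x' x f c i) := by
  by_cases hi : c.par i = i
  · rw [x'_par c hi, map_sub, map_sub, map_sum, map_sum, hgh i rfl]
    congr 1
    refine Finset.sum_congr rfl fun m hm => ?_
    obtain ⟨h1, h2⟩ := (mem_Ico_iff c hi m).1 hm
    rw [map_smul, map_smul, hgh m (by rw [h1, hi])]
  · rw [x'_child c hi, map_smul, map_smul, hgh i rfl]

theorem apply_x_eq_zero (c : Comb A B) (g : StrongDual 𝕜 E) (n : ℕ)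
    (hg : ∀ j, c.par j = n → g (x' x f c j) = 0) : ∀ j, c.par j = n → g (x j) = 0 := by
  have hch : ∀ j, c.par j = n → j ≠ n → g (x j) = 0 := by
    intro j hj hjn
    have h1 : c.par j ≠ j := by rw [hj]; exact Ne.symm hjn
    have h2 := hg j hj
    rw [x'_child c h1, map_smul, smul_eq_mul, mul_eq_zero] at h2
    exact h2.resolve_left (inv_ne_zero (tau_ne x f c.par j))
  intro j hj
  by_cases hjn : j = n
  · subst hjn
    have h2 := hg j hj
    rw [x'_par c hj, map_sub, map_sum, Finset.sum_eq_zero, sub_zero] at h2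
    · exact h2
    · intro m hm
      obtain ⟨h3, h4⟩ := (mem_Ico_iff c hj m).1 hm
      rw [map_smul, hch m h3 h4, smul_zero]
  · exact hch j hj hjn

/-- expansion in a biorthogonal system -/
theorem mem_span_support {y : ℕ → E} {φ : ℕ → StrongDual 𝕜 E}
    (hbi : ∀ i j, φ i (y j) = if i = j then 1 else 0) {h : StrongDual 𝕜 E}
    (hh : h ∈ Submodule.span 𝕜 (range φ)) :
    h ∈ Submodule.span 𝕜 (φ '' {i | h (y i) ≠ 0}) := by
  obtain ⟨N, hN⟩ := exists_Iio hh
  have e : h = ∑ n ∈ Finset.Ico 0 N, h (y n) • φ n := by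
    refine eq_sum_Ico hbi (q := 0) (q' := N) ?_
    refine Submodule.span_mono (image_mono ?_) hN
    intro i hi
    exact ⟨Nat.zero_le i, hi⟩
  rw [e]
  refine Submodule.sum_mem _ fun i hi => ?_
  by_cases h0 : h (y i) = 0
  · rw [h0, sd_zero_smul]; exact Submodule.zero_mem _
  · refine Submodule.smul_mem _ _ (Submodule.subset_span ⟨i, ?_, rfl⟩)
    rw [← e]
    exact h0

/-- Lemma L -/
theorem sum_mem_span (hbi : ∀ i j, f i (x j) = if i = j then 1 else 0) (c : Comb A B)
    (g : StrongDual 𝕜 E) (C : Finset ℕ) (hC : ∀ m, c.par m ∈ C ↔ m ∈ C) :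
    ∑ i ∈ C, g (x i) • f i ∈ Submodule.span 𝕜 (f' x f c '' {i | g (x' x f c i) ≠ 0}) := by
  classical
  set h : StrongDual 𝕜 E := ∑ i ∈ C, g (x i) • f i with hh
  have h1 : h ∈ Submodule.span 𝕜 (range (f' x f c)) :=
    Submodule.sum_mem _ fun i _ => Submodule.smul_mem _ _ (f_mem c i)
  have h2 := mem_span_support (biorth' hbi c) h1
  refine Submodule.span_mono (image_mono ?_) h2
  intro i hi
  simp only [mem_ofPred_eq] at hi ⊢
  intro hg0
  apply hi
  have hx : ∀ j, h (x j) = if j ∈ C then g (x j) else 0 := fun j => by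
    rw [hh]; exact sum_apply_x hbi C (fun i => g (x i)) j
  by_cases hiC : i ∈ C
  · rw [apply_x'_eq c h g i fun j hj => ?_]
    · exact hg0
    · rw [hx j, if_pos]
      rw [← hC, hj, hC]
      exact hiC
  · rw [apply_x'_eq c h 0 i fun j hj => ?_]
    · rfl
    · rw [hx j, if_neg]
      · rfl
      · rw [← hC, hj, hC]
        exact hiC

/-- error sums -/
theorem near_sum (c : Comb A B) (S : Set ℕ) (F : Finset ℕ) (N : ℕ) (hF : ∀ n ∈ F, N ≤ n)
    (a : ℕ → 𝕜) (K : ℝ) (hK : 0 ≤ K) (ha : ∀ n ∈ F, ‖a n‖ ≤ K * ‖x n‖)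
    (hS : ∀ n ∈ F, a n ≠ 0 → ∃ i ∈ S, c.par i = n) :
    ∃ s ∈ Submodule.span 𝕜 (f' x f c '' S), ‖∑ n ∈ F, a n • f n - s‖ ≤ K * ((1 / 2) ^ N * 2) := by
  classical
  have : ∀ n, ∃ i, n ∈ F → a n ≠ 0 → i ∈ S ∧ c.par i = n := by
    intro n
    by_cases h : n ∈ F ∧ a n ≠ 0
    · obtain ⟨i, hi1, hi2⟩ := hS n h.1 h.2
      exact ⟨i, fun _ _ => ⟨hi1, hi2⟩⟩
    · exact ⟨0, fun h1 h2 => (h ⟨h1, h2⟩).elim⟩
  choose i hi using this
  refine ⟨∑ n ∈ F, a n • f' x f c (i n), Submodule.sum_mem _ fun n hn => ?_, ?_⟩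
  · by_cases h0 : a n = 0
    · rw [h0, sd_zero_smul]; exact Submodule.zero_mem _
    · exact Submodule.smul_mem _ _ (Submodule.subset_span ⟨i n, (hi n hn h0).1, rfl⟩)
  · rw [← Finset.sum_sub_distrib]
    refine (norm_sum_le _ _).trans ?_
    have h1 : ∀ n ∈ F, ‖a n • f n - a n • f' x f c (i n)‖ ≤ K * ((1 / 2) ^ N * (1 / 2) ^ n) := by
      intro n hn
      rw [← sd_smul_sub, norm_smul]
      by_cases h0 : a n = 0
      · rw [h0, norm_zero, zero_mul]; positivity
      · have h2 := norm_f_sub (x := x) (f := f) c (hi n hn h0).2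
        have h3 := eps_pos x n
        calc ‖a n‖ * ‖f n - f' x f c (i n)‖ ≤ (K * ‖x n‖) * eps x n := by
              gcongr
              exact ha n hn
          _ = K * (‖x n‖ * eps x n) := by ring
          _ ≤ K * (1 / 4) ^ n := by
              gcongr
              exact mul_eps_le x n
          _ = K * ((1 / 2) ^ n * (1 / 2) ^ n) := by
              rw [← mul_pow]; norm_num
          _ ≤ K * ((1 / 2) ^ N * (1 / 2) ^ n) := by
              gcongr ?_ * (?_ * ?_)
              exact pow_le_pow_of_le_one (by norm_num) (by norm_num) (hF n hn)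
    refine (Finset.sum_le_sum h1).trans ?_
    rw [← Finset.mul_sum, ← Finset.mul_sum]
    gcongr
    have := summable_geometric_two.sum_le_tsum F (fun n _ => by positivity)
    rw [tsum_geometric_two] at this
    exact this

/-- The flattened perturbation is strong: main step. -/
theorem strong_step (hbi : ∀ i j, f i (x j) = if i = j then 1 else 0)
    (hf : Dense (Submodule.span 𝕜 (range f) : Set (StrongDual 𝕜 E)))
    (c : Comb (RA x f) (RB x f)) (g : StrongDual 𝕜 E) (δ : ℝ) (hδ : 0 < δ) :
    ∃ s ∈ Submodule.span 𝕜 (f' x f c '' {i | g (x' x f c i) ≠ 0}),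
      ‖g - s‖ ≤ 7 * δ + ‖g‖ * δ := by
  classical
  set S : Set ℕ := {i | g (x' x f c i) ≠ 0} with hS
  obtain ⟨h, hh, hgh⟩ := hf.exists_dist_lt g hδ
  rw [dist_eq_norm] at hgh
  obtain ⟨N, hN⟩ := exists_Iio hh
  obtain ⟨M, hM⟩ : ∃ M : ℕ, (1 / 2 : ℝ) ^ M < δ / 2 :=
    exists_pow_lt_of_lt_one (by positivity) (by norm_num)
  set t : ℕ := max N M with ht
  have hat : t ≤ c.a t := c.le_a t
  have hhalf : ∀ n, M ≤ n → (1 / 2 : ℝ) ^ n * 2 ≤ δ := by
    intro n hn
    have : (1 / 2 : ℝ) ^ n ≤ (1 / 2) ^ M := pow_le_pow_of_le_one (by norm_num) (by norm_num) hn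
    linarith
  by_cases hcase : ∀ n, c.a t ≤ n → n < c.b t → ∃ i ∈ S, c.par i = n
  · -- case II
    obtain ⟨u, hu, hu2⟩ := c.hRA t (g - h)
    rw [ps_sub, ps_eq_self hbi ((le_max_left N M).trans hat) hN] at hu2
    -- the first part
    have hs1 : ps x f (c.a t) g ∈ Submodule.span 𝕜 (f' x f c '' S) := by
      refine sum_mem_span hbi c g (Finset.range (c.a t)) fun m => ?_
      rw [Finset.mem_range, Finset.mem_range]
      exact (c.init t m).symm
    -- the second part
    have hue := eq_sum_Ico hbi hu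
    have hux : ∀ n ∈ Finset.Ico (c.a t) (c.b t), ‖u (x n)‖ ≤ (2 * δ) * ‖x n‖ := by
      intro n hn
      have hn' := (Finset.mem_Ico.1 hn).1
      have e : u (x n) = (ps x f (c.a t) g - h + u) (x n) := by
        have e1 : ps x f (c.a t) g (x n) = 0 := by
          rw [ps, sum_apply_x hbi _ (fun n => g (x n)), if_neg]
          rw [Finset.mem_range]; omega
        have e2 : h (x n) = 0 := by
          have : h = ∑ k ∈ Finset.Ico 0 N, h (x k) • f k := by
            refine eq_sum_Ico hbi (q := 0) (q' := N) ?_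
            refine Submodule.span_mono (image_mono ?_) hN
            intro i hi
            exact ⟨Nat.zero_le i, hi⟩
          rw [this, sum_apply_x hbi _ (fun n => h (x n)), if_neg]
          rw [Finset.mem_Ico]
          have := le_max_left N M
          omega
        rw [_root_.add_apply, _root_.sub_apply, e1, e2]
        ring
      rw [e]
      refine (ContinuousLinearMap.le_opNorm _ _).trans ?_
      gcongr
      linarith
    obtain ⟨s, hs, hs2⟩ := near_sum (f := f) c S (Finset.Ico (c.a t) (c.b t)) (c.a t)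
      (fun n hn => (Finset.mem_Ico.1 hn).1) (fun n => u (x n)) (2 * δ) (by positivity) hux
      (fun n hn _ => hcase n (Finset.mem_Ico.1 hn).1 (Finset.mem_Ico.1 hn).2)
    rw [← hue] at hs2
    refine ⟨ps x f (c.a t) g + s, Submodule.add_mem _ hs1 hs, ?_⟩
    have e : g - (ps x f (c.a t) g + s) = (g - h) - (ps x f (c.a t) g - h + u) + (u - s) := by abel
    rw [e]
    have h1 := norm_add_le ((g - h) - (ps x f (c.a t) g - h + u)) (u - s)
    have h2 := norm_sub_le (g - h) (ps x f (c.a t) g - h + u)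
    have h3 : 2 * δ * ((1 / 2) ^ (c.a t) * 2) ≤ 2 * δ * 2 := by
      have : (1 / 2 : ℝ) ^ (c.a t) ≤ 1 := pow_le_one₀ (by norm_num) (by norm_num)
      gcongr
      linarith
    have h4 : 0 ≤ ‖g‖ * δ := by positivity
    linarith
  · -- case I
    push Not at hcase
    obtain ⟨n0, hn1, hn2, hn3⟩ := hcase
    have hgr : ∀ j, c.par j = n0 → g (x' x f c j) = 0 := by
      intro j hj
      by_contra hne
      exact hn3 j hne hj
    have hgx := apply_x_eq_zero c g n0 hgr
    have hRB := c.hRB t n0 hn1 hn2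
    have hlow := c.low t n0 hn1 hn2
    have hpar0 := c.parent t n0 hn1 hn2
    -- `a t ≤ lo n0`
    have hlo : ∀ m, m < n0 → m < c.lo n0 := by
      intro m hm
      rw [hlow]
      left
      by_cases h : c.a t ≤ m
      · rw [c.parent t m h (hm.trans hn2)]; exact hm
      · exact lt_of_lt_of_le ((c.init t m).1 (not_le.1 h)) hn1
    have hn0lo : n0 < c.lo n0 := (hlow n0).2 (Or.inr ⟨le_rfl, hn2⟩)
    have hNlo : N ≤ c.lo n0 := by
      have := le_max_left N M
      omega
    -- estimate by (B)
    have hB := hRB (h - ps x f (c.lo n0) g) (Submodule.sub_mem _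
      (Submodule.span_mono (image_mono (Iio_subset_Iio hNlo)) hN)
      (Submodule.sum_mem _ fun i hi => Submodule.smul_mem _ _
        (Submodule.subset_span ⟨i, Finset.mem_range.1 hi, rfl⟩))) (ps x f (c.lo n0) g - g) (by
        intro n hn
        rw [_root_.sub_apply, ps, sum_apply_x hbi _ (fun n => g (x n))]
        by_cases hnlo : n < c.lo n0
        · rw [if_pos (Finset.mem_range.2 hnlo), sub_self]
        · rw [if_neg (by rw [Finset.mem_range]; exact hnlo)]
          have := ((c.child n0 hpar0 n).2 ⟨not_lt.1 hnlo, hn⟩).1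
          rw [hgx n this, sub_self])
    have e1 : h - ps x f (c.lo n0) g + (ps x f (c.lo n0) g - g) = -(g - h) := by abel
    rw [e1, norm_neg] at hB
    -- the splitting of the partial sum
    set C : Finset ℕ := (Finset.range (c.lo n0)).filter fun m => c.par m < n0 with hC
    have hCmem : ∀ m, m ∈ C ↔ c.par m < n0 := by
      intro m
      rw [hC, Finset.mem_filter, Finset.mem_range]
      exact ⟨fun h => h.2, fun h => ⟨(hlow m).2 (Or.inl h), h⟩⟩
    have hsplit : ps x f (c.lo n0) g = ∑ i ∈ C, g (x i) • f i +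
        ∑ i ∈ Finset.Ico n0 (c.b t), g (x i) • f i := by
      rw [ps, ← Finset.sum_filter_add_sum_filter_not (Finset.range (c.lo n0))
        (fun m => c.par m < n0)]
      congr 1
      refine Finset.sum_congr ?_ fun _ _ => rfl
      ext m
      rw [Finset.mem_filter, Finset.mem_range, Finset.mem_Ico, hlow]
      constructor
      · rintro ⟨h1 | h1, h2⟩
        · exact (h2 h1).elim
        · exact h1
      · intro h1
        refine ⟨Or.inr h1, ?_⟩
        rw [c.parent t m (hn1.trans h1.1) h1.2]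
        omega
    have hs1 : ∑ i ∈ C, g (x i) • f i ∈ Submodule.span 𝕜 (f' x f c '' S) := by
      refine sum_mem_span hbi c g C fun m => ?_
      rw [hCmem, hCmem, c.par_par]
    obtain ⟨s, hs, hs2⟩ := near_sum (x := x) (f := f) c S (Finset.Ico n0 (c.b t)) n0
      (fun n hn => (Finset.mem_Ico.1 hn).1) (fun n => g (x n)) ‖g‖ (norm_nonneg _)
      (fun n _ => g.le_opNorm _)
      (fun n hn hne => by
        by_contra hcon
        push Not at hcon
        apply hne
        refine apply_x_eq_zero (f := f) c g n (fun j hj => ?_) n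
          (c.parent t n (hn1.trans (Finset.mem_Ico.1 hn).1) (Finset.mem_Ico.1 hn).2)
        by_contra hne'
        exact hcon j hne' hj)
    refine ⟨∑ i ∈ C, g (x i) • f i + s, Submodule.add_mem _ hs1 hs, ?_⟩
    have e : g - (∑ i ∈ C, g (x i) • f i + s) = (g - h) + (h - ps x f (c.lo n0) g) +
        (∑ i ∈ Finset.Ico n0 (c.b t), g (x i) • f i - s) := by
      rw [hsplit]; abel
    rw [e]
    have h1 := norm_add_le ((g - h) + (h - ps x f (c.lo n0) g))
      (∑ i ∈ Finset.Ico n0 (c.b t), g (x i) • f i - s)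
    have h2 := norm_add_le (g - h) (h - ps x f (c.lo n0) g)
    have h3 : ‖g‖ * ((1 / 2) ^ n0 * 2) ≤ ‖g‖ * δ := by
      gcongr
      refine hhalf n0 ?_
      have := le_max_right N M
      omega
    linarith

/-- Every space with a shrinking biorthogonal system has one whose dual part is strong. -/
theorem exists_strong (hbi : ∀ i j, f i (x j) = if i = j then 1 else 0)
    (hx : Dense (Submodule.span 𝕜 (range x) : Set E))
    (hf : Dense (Submodule.span 𝕜 (range f) : Set (StrongDual 𝕜 E))) :
    ∃ (y : ℕ → E) (φ : ℕ → StrongDual 𝕜 E), (∀ i j, φ i (y j) = if i = j then 1 else 0) ∧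
      Dense (Submodule.span 𝕜 (range y) : Set E) ∧
      Dense (Submodule.span 𝕜 (range φ) : Set (StrongDual 𝕜 E)) ∧
      ∀ M : Set ℕ, closure (Submodule.span 𝕜 (φ '' M) : Set (StrongDual 𝕜 E)) =
        {g | ∀ j, j ∉ M → g (y j) = 0} := by
  classical
  obtain ⟨c⟩ := exists_comb (RA x f) (RB x f) (fun q => by
    obtain ⟨q1, h1⟩ := exists_RA hbi hf q
    obtain ⟨q2, h2⟩ := exists_RB (f := f) hx q
    exact ⟨max (q + 1) (max q1 q2), by omega, h1 _ (by omega), h2 _ (by omega)⟩)
  refine ⟨x' x f c, f' x f c, biorth' hbi c, ?_, ?_, fun M => ?_⟩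
  · refine hx.mono ?_
    refine Submodule.span_le.2 ?_
    rintro _ ⟨m, rfl⟩
    exact x_mem c m
  · refine hf.mono ?_
    refine Submodule.span_le.2 ?_
    rintro _ ⟨m, rfl⟩
    exact f_mem c m
  · apply Subset.antisymm
    · refine closure_minimal ?_ ?_
      · intro g hg j hj
        have hg' : g ∈ Submodule.span 𝕜 (f' x f c '' M) := hg
        clear hg
        induction hg' using Submodule.span_induction with
        | mem u hu =>
          obtain ⟨i, hi, rfl⟩ := hu
          rw [biorth' hbi c, if_neg]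
          rintro rfl
          exact hj hi
        | zero => rfl
        | add a b _ _ ha hb => rw [_root_.add_apply, ha, hb, add_zero]
        | smul r a _ ha => rw [_root_.smul_apply, ha, smul_zero]
      · have : {g : StrongDual 𝕜 E | ∀ j, j ∉ M → g (x' x f c j) = 0} =
            ⋂ j ∈ Mᶜ, {g : StrongDual 𝕜 E | g (x' x f c j) = 0} := by
          ext g; simp
        rw [this]
        refine isClosed_biInter fun j _ => ?_
        exact isClosed_eq (by fun_prop) continuous_const
    · intro g hg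
      rw [Metric.mem_closure_iff]
      intro ε hε
      obtain ⟨s, hs, hs2⟩ := strong_step hbi hf c g (ε / (2 * (7 + ‖g‖))) (by positivity)
      refine ⟨s, Submodule.span_mono (image_mono ?_) hs, ?_⟩
      · intro i hi
        by_contra hiM
        exact hi (hg i hiM)
      · rw [dist_eq_norm]
        refine lt_of_le_of_lt hs2 ?_
        have : 7 * (ε / (2 * (7 + ‖g‖))) + ‖g‖ * (ε / (2 * (7 + ‖g‖))) = ε / 2 := by
          field_simp
        rw [this]
        linarith

end Pool.Agent.N312.SBio
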